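import Pool.Agent.SunPoly.Factor

/-!
The coefficients of the two families.
-/

open Finset Polynomial

namespace Pool.Agent.SunPoly

theorem exists_odd (m : ℕ) (hm : m ≠ 0) : ∃ c, m = 2 ^ padicValNat 2 m * (2 * c + 1) := by
  obtain ⟨j, w, hw, hjw⟩ := Nat.exists_eq_two_pow_mul_odd hm
  obtain ⟨c, hc⟩ := hw
  have hj : padicValNat 2 m = j := by
    rw [hjw, padicValNat.mul (by positivity) (by omega), padicValNat.prime_pow,
      padicValNat.eq_zero_of_not_dvd (by omega)]
    omega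
  exact ⟨c, by rw [hj, ← hc]; exact hjw⟩

theorem unitP (k : ℕ) : ∃ ε : E2, (((Nat.choose (2 * k) k : ℚ) ^ 2 : ℚ) : E2) = 2 ^ VP k * ε ∧
    ‖ε - 1‖ ≤ (1 / 2 : ℝ) ^ 2 := by
  obtain ⟨c, hc⟩ := exists_odd k.centralBinom (Nat.centralBinom_ne_zero k)
  rw [val_centralBinom] at hc
  refine ⟨(2 * (c : E2) + 1) ^ 2, ?_, ?_⟩
  · rw [← Nat.centralBinom_eq_two_mul_choose, hc]
    push_cast
    unfold VP
    rw [mul_pow, ← pow_mul, mul_comm (s2 k) 2]
  · have e1 : (2 * (c : E2) + 1) ^ 2 - 1 = 2 * 2 * (((c ^ 2 + c : ℕ)) : E2) := by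
      push_cast
      ring
    rw [e1, norm_mul, norm_mul, norm_two_E2]
    have := norm_nat_le_one (c ^ 2 + c)
    nlinarith

theorem unitQ (k : ℕ) : ∃ ε : E2,
    (((Nat.choose (2 * k) k : ℚ) ^ 2 / ((k : ℚ) + 1) : ℚ) : E2) = 2 ^ VQ k * ε ∧
    ‖ε - 1‖ ≤ (1 / 2 : ℝ) ^ 1 := by
  obtain ⟨c, hc⟩ := exists_odd k.centralBinom (Nat.centralBinom_ne_zero k)
  rw [val_centralBinom] at hc
  obtain ⟨e, he⟩ := exists_odd (k + 1) (by omega)
  have hV : 2 * s2 k = VQ k + padicValNat 2 (k + 1) := by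
    have h1 := VQ_add_one k
    have h2 := s2_succ_add k
    omega
  have hm0 : (2 * (e : E2) + 1) ≠ 0 := by
    have : ((2 * e + 1 : ℕ) : E2) ≠ 0 := by
      exact_mod_cast (show (2 * e + 1) ≠ 0 by omega)
    push_cast at this
    exact this
  have hm1 : ‖(2 * (e : E2) + 1)‖ = 1 := by
    have h1 := norm_natCast_E2 (2 * e + 1) (by omega)
    rw [padicValNat.eq_zero_of_not_dvd (by omega), pow_zero] at h1
    push_cast at h1
    exact h1
  refine ⟨(2 * (c : E2) + 1) ^ 2 / (2 * (e : E2) + 1), ?_, ?_⟩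
  · rw [← Nat.centralBinom_eq_two_mul_choose, hc]
    have h3 : ((k : ℚ) + 1) = 2 ^ padicValNat 2 (k + 1) * (2 * (e : ℚ) + 1) := by
      exact_mod_cast he
    rw [h3]
    push_cast
    rw [mul_pow, ← pow_mul, mul_comm (s2 k) 2, hV, pow_add]
    have h20 : (2 : E2) ^ padicValNat 2 (k + 1) ≠ 0 := pow_ne_zero _ (by norm_num)
    field_simp
  · have e1 : (2 * (c : E2) + 1) ^ 2 / (2 * (e : E2) + 1) - 1 =
        2 * ((((2 * c ^ 2 + 2 * c : ℕ)) : E2) + -(e : E2)) / (2 * (e : E2) + 1) := by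
      rw [div_sub_one hm0]
      congr 1
      push_cast
      ring
    rw [e1, norm_div, hm1, div_one, norm_mul, norm_two_E2, pow_one]
    have h4 : ‖(((2 * c ^ 2 + 2 * c : ℕ)) : E2) + -(e : E2)‖ ≤ 1 := by
      refine (IsUltrametricDist.norm_add_le_max _ _).trans (max_le (norm_nat_le_one _) ?_)
      rw [norm_neg]
      exact norm_nat_le_one _
    linarith

/-- degree of the polynomials -/
theorem natDegree_sum (n : ℕ) (c : ℕ → ℚ) (hc : c n ≠ 0) :
    (∑ k ∈ range (n + 1), C (c k) * X ^ k : ℚ[X]).natDegree = n := by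
  rw [Finset.sum_range_succ]
  have h1 : (C (c n) * X ^ n : ℚ[X]).natDegree = n := natDegree_C_mul_X_pow n _ hc
  rcases Nat.eq_zero_or_pos n with h0 | h0
  · subst h0
    rw [Finset.range_zero, Finset.sum_empty, zero_add]
    exact h1
  · rw [natDegree_add_eq_right_of_natDegree_lt]
    · exact h1
    · rw [h1]
      refine lt_of_le_of_lt (natDegree_sum_le_of_forall_le (n := n - 1) _ _ fun k hk => ?_) (by omega)
      have := Finset.mem_range.1 hk
      exact (natDegree_C_mul_X_pow_le _ _).trans (by omega)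

/-- irreducibility from divisibility of the degrees of the factors -/
theorem irreducible_of_dvd (p : ℚ[X]) (hp : 0 < p.natDegree)
    (h : ∀ f : ℚ[X], f ∣ p → p.natDegree ∣ f.natDegree) : Irreducible p := by
  have hp0 : p ≠ 0 := by
    rintro rfl
    simp at hp
  refine ⟨fun hu => ?_, fun a b hab => ?_⟩
  · have := natDegree_eq_zero_of_isUnit hu
    omega
  · have ha0 : a ≠ 0 := by
      rintro rfl
      rw [zero_mul] at hab
      exact hp0 hab
    have hb0 : b ≠ 0 := by
      rintro rfl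
      rw [mul_zero] at hab
      exact hp0 hab
    have h1 : p.natDegree = a.natDegree + b.natDegree := by
      conv_lhs => rw [hab]
      exact natDegree_mul ha0 hb0
    have h2 := h a ⟨b, hab⟩
    rcases Nat.eq_zero_or_pos a.natDegree with h3 | h3
    · left
      rw [isUnit_iff_degree_eq_zero, degree_eq_natDegree ha0, h3]
      rfl
    · right
      have h4 := Nat.le_of_dvd h3 h2
      have h5 : b.natDegree = 0 := by omega
      rw [isUnit_iff_degree_eq_zero, degree_eq_natDegree hb0, h5]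
      rfl

end Pool.Agent.SunPoly
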