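import Mathlib

/-!
Binary digit sums and the 2-adic valuation of the central binomial coefficients.
-/

namespace Pool.Agent.SunPoly

/-- the binary digit sum -/
def s2 (n : ℕ) : ℕ := (Nat.digits 2 n).sum

@[simp] theorem s2_zero : s2 0 = 0 := by simp [s2]

@[simp] theorem s2_one : s2 1 = 1 := by simp [s2]

theorem s2_two_mul (n : ℕ) : s2 (2 * n) = s2 n := by
  rcases Nat.eq_zero_or_pos n with h | h
  · rw [h]
  · unfold s2
    rw [Nat.digits_def' (by norm_num) (by omega)]
    simp

theorem s2_two_mul_add_one (n : ℕ) : s2 (2 * n + 1) = s2 n + 1 := by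
  unfold s2
  rw [Nat.digits_def' (by norm_num) (by omega)]
  have h1 : (2 * n + 1) % 2 = 1 := by omega
  have h2 : (2 * n + 1) / 2 = n := by omega
  rw [h1, h2, List.sum_cons]
  omega

theorem s2_le (n : ℕ) : s2 n ≤ n := Nat.digit_sum_le 2 n

theorem val_factorial (n : ℕ) : padicValNat 2 n.factorial + s2 n = n := by
  have h1 := sub_one_mul_padicValNat_factorial (p := 2) n
  have h2 := s2_le n
  unfold s2 at h2 ⊢
  omega

theorem s2_add_le (m n : ℕ) : s2 (m + n) ≤ s2 m + s2 n := by
  have h1 := val_factorial m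
  have h2 := val_factorial n
  have h3 := val_factorial (m + n)
  have h4 : padicValNat 2 (m.factorial * n.factorial) ≤ padicValNat 2 (m + n).factorial := by
    rw [← padicValNat_dvd_iff_le (Nat.factorial_ne_zero _)]
    exact pow_padicValNat_dvd.trans (Nat.factorial_mul_factorial_dvd_factorial_add m n)
  rw [padicValNat.mul (Nat.factorial_ne_zero _) (Nat.factorial_ne_zero _)] at h4
  omega

theorem val_centralBinom (k : ℕ) : padicValNat 2 k.centralBinom = s2 k := by
  have h1 := val_factorial k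
  have h2 := val_factorial (2 * k)
  have h3 : k.centralBinom * k.factorial * k.factorial = (2 * k).factorial := by
    have := Nat.choose_mul_factorial_mul_factorial (n := 2 * k) (k := k) (by omega)
    rw [Nat.centralBinom_eq_two_mul_choose]
    have h4 : 2 * k - k = k := by omega
    rwa [h4] at this
  have h4 := congrArg (padicValNat 2) h3
  have hc : k.centralBinom ≠ 0 := Nat.centralBinom_ne_zero k
  have hf : k.factorial ≠ 0 := Nat.factorial_ne_zero k
  rw [padicValNat.mul (mul_ne_zero hc hf) hf, padicValNat.mul hc hf] at h4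
  rw [s2_two_mul] at h2
  omega

theorem s2_succ_add (k : ℕ) : s2 (k + 1) + padicValNat 2 (k + 1) = s2 k + 1 := by
  have h1 := val_factorial k
  have h2 := val_factorial (k + 1)
  rw [Nat.factorial_succ, padicValNat.mul (by omega) (Nat.factorial_ne_zero _)] at h2
  omega

theorem s2_pow_mul_add (a : ℕ) : ∀ q r : ℕ, r < 2 ^ a → s2 (2 ^ a * q + r) = s2 q + s2 r := by
  induction a with
  | zero =>
    intro q r hr
    have : r = 0 := by
      rw [pow_zero] at hr
      omega
    simp [this]
  | succ a ih =>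
    intro q r hr
    rw [pow_succ] at hr
    obtain ⟨t, ht | ht⟩ := Nat.even_or_odd' r
    · subst ht
      have h1 : 2 ^ (a + 1) * q + 2 * t = 2 * (2 ^ a * q + t) := by ring
      rw [h1, s2_two_mul, s2_two_mul, ih q t (by omega)]
    · subst ht
      have h1 : 2 ^ (a + 1) * q + (2 * t + 1) = 2 * (2 ^ a * q + t) + 1 := by ring
      rw [h1, s2_two_mul_add_one, s2_two_mul_add_one, ih q t (by omega)]
      omega

theorem s2_pow_mul (a q : ℕ) : s2 (2 ^ a * q) = s2 q := by
  have := s2_pow_mul_add a q 0 (by positivity)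
  simpa using this

theorem s2_pow (a : ℕ) : s2 (2 ^ a) = 1 := by
  have := s2_pow_mul a 1
  simpa using this

theorem s2_pos {n : ℕ} (h : n ≠ 0) : 1 ≤ s2 n := by
  have h1 := s2_succ_add (n - 1)
  by_contra hcon
  have h2 : s2 n = 0 := by omega
  have h3 : n - 1 + 1 = n := by omega
  rw [h3] at h1
  have h4 := val_factorial n
  have h5 := s2_le (n - 1)
  -- digit sum zero means zero
  unfold s2 at h2
  have h6 : ∀ d ∈ Nat.digits 2 n, d = 0 := by
    intro d hd
    exact List.sum_eq_zero_iff.1 h2 d hd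
  have h7 := Nat.getLast_digit_ne_zero 2 h
  exact h7 (h6 _ (List.getLast_mem _))

theorem s2_add_one_le {n : ℕ} (h : 2 ≤ n) : s2 n + 1 ≤ n := by
  obtain ⟨t, ht | ht⟩ := Nat.even_or_odd' n
  · subst ht
    rw [s2_two_mul]
    have := s2_le t
    omega
  · subst ht
    rw [s2_two_mul_add_one]
    have := s2_le t
    omega

theorem eq_pow_of_s2 : ∀ n : ℕ, s2 n = 1 → ∃ j, n = 2 ^ j := by
  intro n
  induction n using Nat.strong_induction_on with
  | _ n ih =>
    intro h
    obtain ⟨t, ht | ht⟩ := Nat.even_or_odd' n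
    · subst ht
      rw [s2_two_mul] at h
      have h0 : t ≠ 0 := by
        rintro rfl
        simp at h
      obtain ⟨j, hj⟩ := ih t (by omega) h
      exact ⟨j + 1, by rw [hj, pow_succ]; ring⟩
    · subst ht
      rw [s2_two_mul_add_one] at h
      have h0 : t = 0 := by
        by_contra h0
        have := s2_pos h0
        omega
      exact ⟨0, by rw [h0]; rfl⟩

/-- the basic inequality -/
theorem s2_ineq {a n u x : ℕ} (hn : n = 2 ^ a * u) (hx : x ≤ n) :
    2 ^ a * s2 n ≤ 2 ^ a * s2 x + (n - x) := by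
  subst hn
  rw [s2_pow_mul]
  set q := x / 2 ^ a with hq
  set r := x % 2 ^ a with hr
  have hx' : x = 2 ^ a * q + r := (Nat.div_add_mod x (2 ^ a)).symm
  have hr' : r < 2 ^ a := Nat.mod_lt _ (by positivity)
  have hqu : q ≤ u := by
    by_contra hcon
    have h1 : u + 1 ≤ q := by omega
    have h2 : 2 ^ a * (u + 1) ≤ 2 ^ a * q := Nat.mul_le_mul_left _ h1
    have h3 : 0 < 2 ^ a := by positivity
    rw [mul_add] at h2
    omega
  have hs : s2 x = s2 q + s2 r := by
    rw [hx', s2_pow_mul_add a q r hr']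
  obtain ⟨w, rfl⟩ := Nat.exists_eq_add_of_le hqu
  have h1 : s2 (q + w) ≤ s2 q + s2 w := s2_add_le q w
  have h2 : s2 w ≤ w := s2_le w
  have h3 : 2 ^ a * s2 (q + w) ≤ 2 ^ a * (s2 q + w) := Nat.mul_le_mul_left _ (by omega)
  have h4 : 2 ^ a * (q + w) - x = 2 ^ a * w - r := by
    rw [hx', mul_add]
    omega
  rw [h4, hs]
  rcases Nat.eq_zero_or_pos r with h5 | h5
  · rw [h5, s2_zero]
    rw [mul_add] at h3
    omega
  · have h6 := s2_pos h5.ne'
    have h7 : 2 ^ a * 1 ≤ 2 ^ a * s2 r := Nat.mul_le_mul_left _ h6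
    have h8 : r ≤ 2 ^ a * w := by
      rw [hx', mul_add] at hx
      omega
    rw [mul_add] at h3 ⊢
    omega

end Pool.Agent.SunPoly
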