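import Pool.Agent.SunPoly.Hull

/-!
The two exponent functions, and the terms that are small.
-/

namespace Pool.Agent.SunPoly

/-- the exponent of `2` in `binom(2x, x)^2` -/
def VP (x : ℕ) : ℕ := 2 * s2 x

/-- the exponent of `2` in `binom(2x, x)^2 / (x + 1)` -/
def VQ (x : ℕ) : ℕ := s2 x + s2 (x + 1) - 1

theorem valOK_VP : ValOK VP where
  zero := by simp [VP]
  pos := fun x hx => by
    have := s2_pos (n := x) (by omega)
    unfold VP
    omega
  even := fun x => rfl
  odd := fun x => by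
    left
    unfold VP
    rw [s2_two_mul, s2_two_mul_add_one]
    omega

theorem VQ_add_one (x : ℕ) : VQ x + 1 = s2 x + s2 (x + 1) := by
  have := s2_pos (n := x + 1) (by omega)
  unfold VQ
  omega

theorem valOK_VQ : ValOK VQ where
  zero := by simp [VQ]
  pos := fun x hx => by
    have h1 := s2_pos (n := x) (by omega)
    have h2 := s2_pos (n := x + 1) (by omega)
    unfold VQ
    omega
  even := fun x => by
    have h1 := VQ_add_one (2 * x)
    rw [s2_two_mul_add_one, s2_two_mul] at h1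
    rw [s2_two_mul]
    omega
  odd := fun x => by
    have h1 := VQ_add_one (2 * x)
    have h2 := VQ_add_one (2 * x + 1)
    have h3 := VQ_add_one (2 * x + 2)
    have h4 : 2 * x + 1 + 1 = 2 * (x + 1) := by ring
    have h5 : 2 * x + 2 = 2 * (x + 1) := by ring
    have h6 : 2 * x + 2 + 1 = 2 * (x + 1) + 1 := by ring
    rw [s2_two_mul_add_one, s2_two_mul] at h1
    rw [s2_two_mul_add_one, h4, s2_two_mul] at h2
    rw [h6, h5, s2_two_mul, s2_two_mul_add_one] at h3
    rw [h5]
    omega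

theorem s2_pow_sub_one (a : ℕ) : s2 (2 ^ a - 1) = a := by
  have h1 := s2_succ_add (2 ^ a - 1)
  have h2 : 0 < 2 ^ a := by positivity
  have h3 : 2 ^ a - 1 + 1 = 2 ^ a := by omega
  rw [h3, s2_pow, padicValNat.prime_pow] at h1
  omega

/-- coordinates -/
theorem coords {a n u x : ℕ} (hn : n = 2 ^ a * u) (hx : x ≤ n) : ∃ q w r, u = q + w ∧
    x = 2 ^ a * q + r ∧ r < 2 ^ a ∧ r ≤ 2 ^ a * w ∧ n - x = 2 ^ a * w - r := by
  subst hn
  have hx' : x = 2 ^ a * (x / 2 ^ a) + x % 2 ^ a := (Nat.div_add_mod x (2 ^ a)).symm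
  have hr' : x % 2 ^ a < 2 ^ a := Nat.mod_lt _ (by positivity)
  have hqu : x / 2 ^ a ≤ u := by
    by_contra hcon
    have h1 : u + 1 ≤ x / 2 ^ a := by omega
    have h2 : 2 ^ a * (u + 1) ≤ 2 ^ a * (x / 2 ^ a) := Nat.mul_le_mul_left _ h1
    have h3 : 0 < 2 ^ a := by positivity
    rw [mul_add] at h2
    omega
  obtain ⟨w, hw⟩ := Nat.exists_eq_add_of_le hqu
  refine ⟨x / 2 ^ a, w, x % 2 ^ a, hw, hx', hr', ?_, ?_⟩
  · have h1 : 2 ^ a * u = 2 ^ a * (x / 2 ^ a) + 2 ^ a * w := by
      rw [← mul_add, ← hw]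
    omega
  · have h1 : 2 ^ a * u = 2 ^ a * (x / 2 ^ a) + 2 ^ a * w := by
      rw [← mul_add, ← hw]
    omega

/-- small terms for `P` -/
theorem errP {a n u x : ℕ} (hn : n = 2 ^ a * u) (hu : u % 2 = 1) (hx : x ≤ n) (h1 : x ≠ n)
    (h2 : x ≠ 2 ^ a * (u - 1)) (h3 : ∀ j < a, x ≠ 2 ^ a * (u - 1) + 2 ^ j) :
    2 ^ a * (s2 n + 1) ≤ 2 ^ a * s2 x + (n - x) := by
  obtain ⟨q, w, r, hu', hx', hr, hrw, hsub⟩ := coords hn hx
  have hsn : s2 n = s2 u := by rw [hn, s2_pow_mul]
  have hsx : s2 x = s2 q + s2 r := by rw [hx', s2_pow_mul_add a q r hr]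
  rw [hsub, hsn, hsx]
  have hA : 0 < 2 ^ a := by positivity
  have hE : ∀ w, 2 ≤ w → s2 (q + w) + 1 ≤ s2 q + w := by
    intro w hw
    have e1 := s2_add_le q w
    have e2 := s2_add_one_le hw
    omega
  rcases Nat.eq_zero_or_pos r with hr0 | hr0
  · subst hr0
    have hw2 : 2 ≤ w := by
      rcases Nat.lt_or_ge w 2 with hw | hw
      · exfalso
        interval_cases w
        · apply h1
          rw [hx', hn, hu']
          ring
        · apply h2
          rw [hx', hu']
          simp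
      · exact hw
    have e1 := Nat.mul_le_mul_left (2 ^ a) (hE w hw2)
    rw [hu', s2_zero]
    rw [mul_add (2 ^ a) (s2 q) w] at e1
    rw [add_zero]
    omega
  · have hw1 : 1 ≤ w := by
      rcases Nat.eq_zero_or_pos w with hw | hw
      · rw [hw, mul_zero] at hrw
        omega
      · exact hw
    have e0 := s2_pos hr0.ne'
    rcases Nat.lt_or_ge w 2 with hw | hw
    · have hw' : w = 1 := by omega
      subst hw'
      have e1 : 2 ≤ s2 r := by
        by_contra hcon
        have e2 : s2 r = 1 := by omega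
        obtain ⟨j, hj⟩ := eq_pow_of_s2 r e2
        have e3 : j < a := by
          rw [hj] at hr
          exact (Nat.pow_lt_pow_iff_right (by norm_num)).1 hr
        apply h3 j e3
        rw [hx', hu', hj]
        simp
      have e2 : s2 u = s2 q + 1 := by
        obtain ⟨c, hc | hc⟩ := Nat.even_or_odd' q
        · rw [hu', hc, s2_two_mul_add_one, s2_two_mul]
        · omega
      rw [e2]
      have e3 : 2 ^ a * (s2 q + 1 + 1) ≤ 2 ^ a * (s2 q + s2 r) := Nat.mul_le_mul_left _ (by omega)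
      omega
    · have e1 := Nat.mul_le_mul_left (2 ^ a) (hE w hw)
      rw [hu']
      rw [mul_add (2 ^ a) (s2 q) w] at e1
      have e2 : 2 ^ a * 1 ≤ 2 ^ a * s2 r := Nat.mul_le_mul_left _ e0
      rw [mul_add (2 ^ a) (s2 q)]
      omega

/-- small terms for `Q` -/
theorem errQ {a n u x : ℕ} (ha : 3 ≤ a) (hn : n = 2 ^ a * u) (hu : u % 2 = 1) (hx : x ≤ n)
    (h1 : x ≠ n) (h2 : x ≠ 2 ^ a * (u - 1)) (h3 : x ≠ 2 ^ a * (u - 1) + 1) :
    2 ^ (a - 1) * (VQ n + 1) ≤ 2 ^ (a - 1) * VQ x + (n - x) := by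
  have hA2 : 2 ^ a = 2 * 2 ^ (a - 1) := by
    rw [← pow_succ']
    congr 1
    omega
  have hH4 : 4 ≤ 2 ^ (a - 1) := by
    calc 4 = 2 ^ 2 := rfl
      _ ≤ 2 ^ (a - 1) := Nat.pow_le_pow_right (by norm_num) (by omega)
  have hHe : 2 ∣ 2 ^ (a - 1) := dvd_pow_self 2 (by omega)
  have h2n : 2 ∣ n := by
    rw [hn]
    exact (dvd_pow_self 2 (by omega)).mul_right u
  have hVn : VQ n = 2 * s2 n := valOK_VQ.even' h2n
  obtain ⟨q, w, r, hu', hx', hr, hrw, hsub⟩ := coords hn hx
  have hsn : s2 n = s2 u := by rw [hn, s2_pow_mul]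
  have hsx : s2 x = s2 q + s2 r := by rw [hx', s2_pow_mul_add a q r hr]
  rcases Nat.even_or_odd' x with ⟨y, hy | hy⟩
  · -- even `x`
    have hx2 : 2 ∣ x := ⟨y, hy⟩
    rw [valOK_VQ.even' hx2, hVn]
    have e0 : 2 ^ (a - 1) * (2 * s2 n + 1) = 2 ^ a * s2 n + 2 ^ (a - 1) := by
      rw [hA2]
      ring
    have e1 : 2 ^ (a - 1) * (2 * s2 x) = 2 ^ a * s2 x := by
      rw [hA2]
      ring
    rw [e0, e1]
    by_cases hj : ∀ j < a, x ≠ 2 ^ a * (u - 1) + 2 ^ j
    · have e2 := errP hn hu hx h1 h2 hj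
      rw [mul_add] at e2
      omega
    · push Not at hj
      obtain ⟨j, hja, hj⟩ := hj
      have e2 : 2 ^ j ≤ 2 ^ (a - 1) := Nat.pow_le_pow_right (by norm_num) (by omega)
      have e3 : 2 ^ j < 2 ^ a := by omega
      have e4 : s2 x = s2 (u - 1) + 1 := by rw [hj, s2_pow_mul_add a _ _ e3, s2_pow]
      have e5 : s2 u = s2 (u - 1) + 1 := by
        obtain ⟨c, hc | hc⟩ := Nat.even_or_odd' (u - 1)
        · have : u = 2 * c + 1 := by omega
          rw [hc, this, s2_two_mul_add_one, s2_two_mul]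
        · omega
      have e6 : n = 2 ^ a * (u - 1) + 2 ^ a := by
        rw [hn]
        obtain ⟨c, hc⟩ : ∃ c, u = c + 1 := ⟨u - 1, by omega⟩
        rw [hc]
        simp [mul_add]
      rw [hsn, e4, ← e5]
      omega
  · -- odd `x`
    have hr2 : r % 2 = 1 := by
      have : 2 ^ a * q = 2 * (2 ^ (a - 1) * q) := by rw [hA2]; ring
      omega
    have hw1 : 1 ≤ w := by
      rcases Nat.eq_zero_or_pos w with hw | hw
      · rw [hw, mul_zero] at hrw
        omega
      · exact hw
    have hE0 : s2 u ≤ s2 q + w := by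
      have e1 := s2_add_le q w
      have e2 := s2_le w
      rw [hu']
      omega
    have hV := VQ_add_one x
    have hHx : ∀ m, 2 ^ (a - 1) * (2 * m) = 2 ^ a * m := by
      intro m
      rw [hA2]
      ring
    rw [hsub, hVn, hsn]
    rcases Nat.lt_or_ge (r + 1) (2 ^ a) with hr1 | hr1
    · -- `r + 1 < 2 ^ a`
      have hsx1 : s2 (x + 1) = s2 q + s2 (r + 1) := by
        rw [hx', add_assoc, s2_pow_mul_add a q (r + 1) hr1]
      rw [hsx, hsx1] at hV
      rcases Nat.lt_or_ge r 2 with hr3 | hr3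
      · have hr' : r = 1 := by omega
        subst hr'
        have hw2 : 2 ≤ w := by
          by_contra hcon
          have : w = 1 := by omega
          subst this
          apply h3
          rw [hx', hu']
          simp
        have e1 : s2 (1 + 1) = 1 := s2_pow 1
        rw [s2_one, e1] at hV
        have e2 : VQ x = 2 * s2 q + 1 := by omega
        have e3 : s2 u + 1 ≤ s2 q + w := by
          have e1 := s2_add_le q w
          have e2 := s2_add_one_le hw2
          rw [hu']
          omega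
        have e4 := Nat.mul_le_mul_left (2 ^ a) e3
        rw [e2, mul_add, mul_add, hHx, hHx]
        rw [mul_add, mul_add] at e4
        omega
      · have hs : 2 ≤ s2 r := by
          obtain ⟨c, hc | hc⟩ := Nat.even_or_odd' r
          · omega
          · have e1 := s2_pos (n := c) (by omega)
            rw [hc, s2_two_mul_add_one]
            omega
        have hs1 := s2_pos (n := r + 1) (by omega)
        -- `r ≤ H (s2 r + s2 (r + 1) - 2)`
        have hkey : r + 2 * 2 ^ (a - 1) ≤ 2 ^ (a - 1) * (s2 r + s2 (r + 1)) := by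
          rcases Nat.lt_or_ge r (2 ^ (a - 1)) with hrH | hrH
          · have e1 : 2 ^ (a - 1) * 3 ≤ 2 ^ (a - 1) * (s2 r + s2 (r + 1)) :=
              Nat.mul_le_mul_left _ (by omega)
            omega
          · have e0 : 2 ≤ s2 (r + 1) := by
              by_contra hcon
              have e1 : s2 (r + 1) = 1 := by omega
              obtain ⟨j, hj⟩ := eq_pow_of_s2 _ e1
              have e2 : 2 ^ (a - 1) < 2 ^ j := by omega
              have e3 : 2 ^ j < 2 ^ a := by omega
              have e4 := (Nat.pow_lt_pow_iff_right (by norm_num : 1 < 2)).1 e2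
              have e5 := (Nat.pow_lt_pow_iff_right (by norm_num : 1 < 2)).1 e3
              omega
            have e1 : 2 ^ (a - 1) * 4 ≤ 2 ^ (a - 1) * (s2 r + s2 (r + 1)) :=
              Nat.mul_le_mul_left _ (by omega)
            omega
        have e1 := Nat.mul_le_mul_left (2 ^ a) hE0
        have e2 : 2 ^ (a - 1) * (VQ x + 1) = 2 ^ (a - 1) * (2 * s2 q) +
            2 ^ (a - 1) * (s2 r + s2 (r + 1)) := by
          rw [hV]
          ring
        rw [hHx] at e2
        rw [mul_add] at e2 ⊢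
        rw [hHx]
        rw [mul_add] at e1
        omega
    · -- `r + 1 = 2 ^ a`
      have hr' : r = 2 ^ a - 1 := by omega
      have hsr : s2 r = a := by rw [hr', s2_pow_sub_one]
      have hx1 : x + 1 = 2 ^ a * (q + 1) := by
        rw [hx', mul_add]
        omega
      have hsx1 : s2 (x + 1) = s2 (q + 1) := by rw [hx1, s2_pow_mul]
      rw [hsx, hsx1, hsr] at hV
      have hE1 : s2 u + 1 ≤ s2 (q + 1) + w := by
        have e1 := s2_add_le (q + 1) (w - 1)
        have e2 := s2_le (w - 1)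
        have e3 : q + 1 + (w - 1) = q + w := by omega
        rw [e3] at e1
        rw [hu']
        omega
      have e1 : 2 * s2 u + 1 ≤ s2 q + s2 (q + 1) + 2 * w := by omega
      have e2 := Nat.mul_le_mul_left (2 ^ (a - 1)) e1
      have e3 : 2 ^ (a - 1) * (s2 q + s2 (q + 1) + 2 * w) =
          2 ^ (a - 1) * (s2 q + s2 (q + 1)) + 2 ^ a * w := by
        rw [mul_add, hHx]
      have e4 : 2 ^ (a - 1) * (VQ x + 1) = 2 ^ (a - 1) * (s2 q + s2 (q + 1)) +
          2 ^ (a - 1) * a := by
        rw [hV]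
        ring
      have e5 : 2 ^ (a - 1) * 3 ≤ 2 ^ (a - 1) * a := Nat.mul_le_mul_left _ ha
      rw [e3] at e2
      rw [mul_add] at e4
      omega

end Pool.Agent.SunPoly
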