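import Pool.Agent.SunPoly.Main

/-!
From roots to factors.
-/

open Finset Polynomial

namespace Pool.Agent.SunPoly

/-- degrees of the factors from degrees of the roots -/
theorem natDegree_dvd (d : ℕ) : ∀ (m : ℕ) (h : ℚ_[2][X]), h ≠ 0 → h.natDegree = m →
    (∀ y : E2, aeval y h = 0 → d ∣ (minpoly ℚ_[2] y).natDegree) → d ∣ h.natDegree := by
  intro m
  induction m using Nat.strong_induction_on with
  | _ m ih =>
    intro h h0 hm hy
    rcases Nat.eq_zero_or_pos m with hm0 | hm0
    · rw [hm, hm0]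
      exact dvd_zero _
    · have hdeg : h.degree ≠ 0 := by
        rw [degree_eq_natDegree h0, hm]
        exact_mod_cast hm0.ne'
      obtain ⟨y, hy1⟩ := IsAlgClosed.exists_aeval_eq_zero E2 h hdeg
      obtain ⟨g, hg⟩ := minpoly.dvd ℚ_[2] y hy1
      have hyi : IsIntegral ℚ_[2] y := Algebra.IsIntegral.isIntegral y
      have hmin := minpoly.ne_zero hyi
      have hg0 : g ≠ 0 := by
        rintro rfl
        rw [mul_zero] at hg
        exact h0 hg
      have hsum : h.natDegree = (minpoly ℚ_[2] y).natDegree + g.natDegree := by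
        conv_lhs => rw [hg]
        exact natDegree_mul hmin hg0
      have hpos := minpoly.natDegree_pos hyi
      rw [hsum]
      refine dvd_add (hy y hy1) (ih g.natDegree (by omega) g hg0 rfl fun z hz => hy z ?_)
      rw [hg, map_mul, hz, mul_zero]

/-- transfer to rational polynomials -/
theorem natDegree_dvd_rat (d n : ℕ) (c : ℕ → ℚ) (hc0 : c 0 ≠ 0)
    (hroot : ∀ y : E2, ∑ k ∈ range (n + 1), ((c k : ℚ) : E2) * y ^ k = 0 →
      d ∣ (minpoly ℚ_[2] y).natDegree) (f : ℚ[X])
    (hf : f ∣ ∑ k ∈ range (n + 1), C (c k) * X ^ k) : d ∣ f.natDegree := by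
  have hP0 : (∑ k ∈ range (n + 1), C (c k) * X ^ k : ℚ[X]) ≠ 0 := by
    intro h
    have h1 := congrArg (fun p => p.coeff 0) h
    simp only [finsetSum_coeff, coeff_C_mul, coeff_X_pow, coeff_zero] at h1
    rw [Finset.sum_eq_single 0] at h1
    · simp at h1
      exact hc0 h1
    · intro k _ hk
      rw [if_neg (Ne.symm hk), mul_zero]
    · intro h
      exact absurd (Finset.mem_range.2 (by omega)) h
  have hf0 : f ≠ 0 := by
    rintro rfl
    exact hP0 (zero_dvd_iff.1 hf)
  have h1 : (f.map (algebraMap ℚ ℚ_[2])).natDegree = f.natDegree :=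
    natDegree_map_eq_of_injective (algebraMap ℚ ℚ_[2]).injective f
  rw [← h1]
  refine natDegree_dvd d _ _ ?_ rfl ?_
  · rw [Polynomial.map_ne_zero_iff (algebraMap ℚ ℚ_[2]).injective]
    exact hf0
  · intro y hy
    apply hroot y
    obtain ⟨g, hg⟩ := hf
    have h2 : aeval y (∑ k ∈ range (n + 1), C (c k) * X ^ k : ℚ[X]) = 0 := by
      rw [hg, map_mul]
      rw [aeval_map_algebraMap] at hy
      rw [hy, zero_mul]
    rw [map_sum] at h2
    rw [← h2]
    refine Finset.sum_congr rfl fun k _ => ?_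
    rw [map_mul, aeval_C, map_pow, aeval_X]
    rfl

end Pool.Agent.SunPoly
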