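import Pool.Agent.SunPoly.Err

/-!
Ultrametric analysis near a root, and ramification.
-/

open Finset

namespace Pool.Agent.SunPoly

section ultra

variable {E : Type*} [NormedField E] [IsUltrametricDist E]

theorem norm_eq_of_add_lt {u v : E} (h : ‖u + v‖ < ‖v‖) : ‖u‖ = ‖v‖ :=
  IsUltrametricDist.norm_eq_of_add_norm_lt_max (lt_of_lt_of_le h (le_max_right _ _))

/-- two maximal terms in a vanishing sum -/
theorem two_max (n : ℕ) (f : ℕ → E) (hsum : ∑ k ∈ range (n + 1), f k = 0) (h0 : f 0 ≠ 0) :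
    ∃ k l, k < l ∧ l ≤ n ∧ ‖f k‖ = ‖f l‖ ∧ ∀ x ≤ n, ‖f x‖ ≤ ‖f k‖ := by
  obtain ⟨k, hk, hkmax⟩ := Finset.exists_max_image (range (n + 1)) (fun k => ‖f k‖)
    ⟨0, Finset.mem_range.2 (by omega)⟩
  have hk0 : f k ≠ 0 := by
    intro h
    have h1 := hkmax 0 (Finset.mem_range.2 (by omega))
    rw [h, norm_zero] at h1
    exact h0 (norm_le_zero_iff.1 h1)
  have h1 : f k = -∑ x ∈ (range (n + 1)).erase k, f x := by
    rw [← Finset.add_sum_erase _ _ hk] at hsum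
    exact eq_neg_of_add_eq_zero_left hsum
  have hne : ((range (n + 1)).erase k).Nonempty := by
    by_contra hcon
    rw [Finset.not_nonempty_iff_eq_empty] at hcon
    rw [hcon, Finset.sum_empty, neg_zero] at h1
    exact hk0 h1
  obtain ⟨l, hl, hl'⟩ := IsUltrametricDist.exists_norm_finsetSum_le_of_nonempty hne f
  rw [← norm_neg, ← h1] at hl'
  have hlk : l ≠ k := Finset.ne_of_mem_erase hl
  have hl2 := Finset.mem_of_mem_erase hl
  have h2 : ‖f l‖ = ‖f k‖ := le_antisymm (hkmax l hl2) hl'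
  have hkn : k ≤ n := by
    have := Finset.mem_range.1 hk
    omega
  have hln : l ≤ n := by
    have := Finset.mem_range.1 hl2
    omega
  have hmax : ∀ x ≤ n, ‖f x‖ ≤ ‖f k‖ := fun x hx => hkmax x (Finset.mem_range.2 (by omega))
  rcases Nat.lt_or_gt_of_ne hlk with h | h
  · exact ⟨l, k, h, hkn, h2, fun x hx => (hmax x hx).trans h2.ge⟩
  · exact ⟨k, l, h, hln, h2.symm, hmax⟩

/-- the recursion -/
theorem rec_step (S : Subfield E) (α : E) (hα : α ∈ S) (hα0 : 0 < ‖α‖) (hα1 : ‖α‖ < 1) :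
    ∀ t : ℕ, 1 ≤ t → ∀ X ∈ S, ‖(2 : E)‖ ≤ ‖α‖ ^ (2 ^ t) →
      ‖X ^ 2 + ∑ j ∈ range t, α ^ (2 ^ t - 2 ^ j)‖ ≤ ‖α‖ ^ (2 ^ t) → ∃ z ∈ S, ‖z‖ ^ 2 = ‖α‖ := by
  intro t ht
  induction t, ht using Nat.le_induction with
  | base =>
    intro X hX _ h
    refine ⟨X, hX, ?_⟩
    have h1 : ∑ j ∈ range 1, α ^ (2 ^ 1 - 2 ^ j) = α := by simp
    rw [h1] at h
    have h2 : ‖α‖ ^ (2 ^ 1) < ‖α‖ := by
      rw [pow_one, pow_two]
      nlinarith
    rw [← norm_pow]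
    exact norm_eq_of_add_lt (lt_of_le_of_lt h h2)
  | succ t ht ih =>
    intro X hX h2 h
    have hαne : α ≠ 0 := norm_pos_iff.1 hα0
    have hM : 2 ^ t = 2 * 2 ^ (t - 1) := by
      rw [← pow_succ']
      congr 1
      omega
    set Y := X / α ^ (2 ^ (t - 1)) with hY
    have hYS : Y ∈ S := S.div_mem hX (S.pow_mem hα _)
    have hY2 : X ^ 2 = α ^ (2 ^ t) * Y ^ 2 := by
      rw [hY, div_pow, ← pow_mul, mul_comm (2 ^ (t - 1)) 2, ← hM]
      field_simp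
    have hsum : ∑ j ∈ range (t + 1), α ^ (2 ^ (t + 1) - 2 ^ j) =
        α ^ (2 ^ t) * (∑ j ∈ range t, α ^ (2 ^ t - 2 ^ j) + 1) := by
      rw [Finset.sum_range_succ, mul_add, Finset.mul_sum]
      congr 1
      · refine Finset.sum_congr rfl fun j hj => ?_
        rw [← pow_add]
        congr 1
        have : 2 ^ j ≤ 2 ^ t := Nat.pow_le_pow_right (by norm_num) (Finset.mem_range.1 hj).le
        rw [pow_succ]
        omega
      · rw [mul_one]
        congr 1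
        rw [pow_succ]
        omega
    set T₁ := ∑ j ∈ range t, α ^ (2 ^ t - 2 ^ j) with hT
    have h3 : ‖Y ^ 2 + (T₁ + 1)‖ ≤ ‖α‖ ^ (2 ^ t) := by
      rw [hsum, hY2, ← mul_add, norm_mul, norm_pow] at h
      have h4 : ‖α‖ ^ (2 ^ (t + 1)) = ‖α‖ ^ (2 ^ t) * ‖α‖ ^ (2 ^ t) := by
        rw [← pow_add]
        congr 1
        rw [pow_succ]
        omega
      rw [h4] at h
      exact le_of_mul_le_mul_left h (pow_pos hα0 _)
    have hle1 : ∀ m, ‖α‖ ^ m ≤ 1 := fun m => pow_le_one₀ hα0.le hα1.le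
    have hT1 : ‖T₁ + 1‖ ≤ 1 := by
      refine (IsUltrametricDist.norm_add_le_max _ _).trans (max_le ?_ (by simp))
      apply IsUltrametricDist.norm_sum_le_of_forall_le_of_nonneg zero_le_one
      intro j _
      rw [norm_pow]
      exact hle1 _
    have hYle : ‖Y‖ ≤ 1 := by
      have h5 : ‖Y ^ 2‖ ≤ 1 := by
        have h6 : Y ^ 2 = (Y ^ 2 + (T₁ + 1)) + -(T₁ + 1) := by ring
        rw [h6]
        refine (IsUltrametricDist.norm_add_le_max _ _).trans (max_le (h3.trans (hle1 _)) ?_)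
        rw [norm_neg]
        exact hT1
      rw [norm_pow] at h5
      by_contra hcon
      push Not at hcon
      nlinarith
    have h2' : ‖(2 : E)‖ ≤ ‖α‖ ^ (2 ^ t) := by
      refine h2.trans (pow_le_pow_of_le_one hα0.le hα1.le ?_)
      exact Nat.pow_le_pow_right (by norm_num) (by omega)
    apply ih (Y + 1) (S.add_mem hYS S.one_mem) h2'
    have h7 : (Y + 1) ^ 2 + T₁ = (Y ^ 2 + (T₁ + 1)) + 2 * Y := by ring
    rw [h7]
    refine (IsUltrametricDist.norm_add_le_max _ _).trans (max_le h3 ?_)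
    rw [norm_mul]
    calc ‖(2 : E)‖ * ‖Y‖ ≤ ‖(2 : E)‖ * 1 := mul_le_mul_of_nonneg_left hYle (norm_nonneg _)
      _ = ‖(2 : E)‖ := mul_one _
      _ ≤ _ := h2'

/-- the start for `P` -/
theorem startP (S : Subfield E) (α : E) (hα : α ∈ S) (hα0 : 0 < ‖α‖) (hα1 : ‖α‖ < 1)
    (h2 : ‖(2 : E)‖ = 1 / 2) {a : ℕ} (ha : 2 ≤ a) (hρ : ‖α‖ ^ (2 ^ (a - 1)) = 1 / 2)
    (X : E) (hX : X ∈ S)
    (h : ‖X ^ 2 + ∑ j ∈ range (a - 1), α ^ (2 ^ a - 2 ^ j)‖ ≤ 1 / 4) :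
    ∃ z ∈ S, ‖z‖ ^ 2 = ‖α‖ := by
  have hαne : α ≠ 0 := norm_pos_iff.1 hα0
  have hρ4 : ‖α‖ ^ (2 ^ a) = 1 / 4 := by
    have : 2 ^ a = 2 ^ (a - 1) * 2 := by
      rw [← pow_succ]
      congr 1
      omega
    rw [this, pow_mul, hρ]
    norm_num
  rw [← hρ4] at h
  obtain ⟨t, rfl⟩ : ∃ t, a = t + 2 := ⟨a - 2, by omega⟩
  have ht2 : t + 2 - 1 = t + 1 := by omega
  rw [ht2] at hρ h
  rcases Nat.eq_zero_or_pos t with ht | ht
  · subst ht
    have h1 : ∑ j ∈ range (0 + 1), α ^ (2 ^ (0 + 2) - 2 ^ j) = α ^ 3 := by simp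
    rw [h1] at h
    have h3 : ‖α‖ ^ (2 ^ (0 + 2)) < ‖α ^ 3‖ := by
      rw [norm_pow]
      exact pow_lt_pow_right_of_lt_one₀ hα0 hα1 (by norm_num)
    have h4 := norm_eq_of_add_lt (lt_of_le_of_lt h h3)
    refine ⟨X / α, S.div_mem hX hα, ?_⟩
    rw [norm_div, div_pow, ← norm_pow, h4, norm_pow]
    field_simp
  · set Y := X / α ^ (3 * 2 ^ (t - 1)) with hY
    have hM : 2 ^ t = 2 * 2 ^ (t - 1) := by
      rw [← pow_succ']
      congr 1
      omega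
    have hYS : Y ∈ S := S.div_mem hX (S.pow_mem hα _)
    have hY2 : X ^ 2 = α ^ (3 * 2 ^ t) * Y ^ 2 := by
      rw [hY, div_pow, ← pow_mul]
      have : 3 * 2 ^ (t - 1) * 2 = 3 * 2 ^ t := by rw [hM]; ring
      rw [this]
      field_simp
    have hsum : ∑ j ∈ range (t + 1), α ^ (2 ^ (t + 2) - 2 ^ j) =
        α ^ (3 * 2 ^ t) * (∑ j ∈ range t, α ^ (2 ^ t - 2 ^ j) + 1) := by
      rw [Finset.sum_range_succ, mul_add, Finset.mul_sum]
      have h4 : 2 ^ (t + 2) = 4 * 2 ^ t := by ring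
      congr 1
      · refine Finset.sum_congr rfl fun j hj => ?_
        rw [← pow_add]
        congr 1
        have : 2 ^ j ≤ 2 ^ t := Nat.pow_le_pow_right (by norm_num) (Finset.mem_range.1 hj).le
        omega
      · rw [mul_one]
        congr 1
        omega
    set T₁ := ∑ j ∈ range t, α ^ (2 ^ t - 2 ^ j) with hT
    have h3 : ‖Y ^ 2 + (T₁ + 1)‖ ≤ ‖α‖ ^ (2 ^ t) := by
      rw [hsum, hY2, ← mul_add, norm_mul, norm_pow] at h
      have h4 : ‖α‖ ^ (2 ^ (t + 2)) = ‖α‖ ^ (3 * 2 ^ t) * ‖α‖ ^ (2 ^ t) := by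
        rw [← pow_add]
        congr 1
        ring
      rw [h4] at h
      exact le_of_mul_le_mul_left h (pow_pos hα0 _)
    have hle1 : ∀ m, ‖α‖ ^ m ≤ 1 := fun m => pow_le_one₀ hα0.le hα1.le
    have hT1 : ‖T₁ + 1‖ ≤ 1 := by
      refine (IsUltrametricDist.norm_add_le_max _ _).trans (max_le ?_ (by simp))
      apply IsUltrametricDist.norm_sum_le_of_forall_le_of_nonneg zero_le_one
      intro j _
      rw [norm_pow]
      exact hle1 _
    have hYle : ‖Y‖ ≤ 1 := by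
      have h5 : ‖Y ^ 2‖ ≤ 1 := by
        have h6 : Y ^ 2 = (Y ^ 2 + (T₁ + 1)) + -(T₁ + 1) := by ring
        rw [h6]
        refine (IsUltrametricDist.norm_add_le_max _ _).trans (max_le (h3.trans (hle1 _)) ?_)
        rw [norm_neg]
        exact hT1
      rw [norm_pow] at h5
      by_contra hcon
      push Not at hcon
      nlinarith
    have h2' : ‖(2 : E)‖ ≤ ‖α‖ ^ (2 ^ t) := by
      rw [h2, ← hρ]
      exact pow_le_pow_of_le_one hα0.le hα1.le (Nat.pow_le_pow_right (by norm_num) (by omega))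
    apply rec_step S α hα hα0 hα1 t ht (Y + 1) (S.add_mem hYS S.one_mem) h2'
    have h7 : (Y + 1) ^ 2 + T₁ = (Y ^ 2 + (T₁ + 1)) + 2 * Y := by ring
    rw [h7]
    refine (IsUltrametricDist.norm_add_le_max _ _).trans (max_le h3 ?_)
    rw [norm_mul]
    calc ‖(2 : E)‖ * ‖Y‖ ≤ ‖(2 : E)‖ * 1 := mul_le_mul_of_nonneg_left hYle (norm_nonneg _)
      _ = ‖(2 : E)‖ := mul_one _
      _ ≤ _ := h2'

end ultra

/-- the algebraic closure of `ℚ_2` -/
abbrev E2 := PadicAlgCl 2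

theorem norm_natCast_E2 (m : ℕ) (hm : m ≠ 0) : ‖(m : E2)‖ = (1 / 2 : ℝ) ^ padicValNat 2 m := by
  have h1 : ((m : ℚ_[2]) : E2) = (m : E2) := map_natCast (algebraMap ℚ_[2] E2) m
  rw [← h1, PadicAlgCl.norm_extends]
  have h2 : (m : ℚ_[2]) = ((m : ℚ) : ℚ_[2]) := by simp
  rw [h2, Padic.eq_padicNorm, padicNorm.eq_zpow_of_nonzero (by exact_mod_cast hm)]
  simp [padicValRat.of_nat]

/-- elements of small norm force ramification -/
theorem deg_dvd (y z : E2) (hz : z ∈ IntermediateField.adjoin ℚ_[2] {y}) {c : ℕ}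
    (h : ‖z‖ ^ (2 ^ c) = 1 / 2) : 2 ^ c ∣ (minpoly ℚ_[2] y).natDegree := by
  have hzi : IsIntegral ℚ_[2] z := Algebra.IsIntegral.isIntegral z
  have hyi : IsIntegral ℚ_[2] y := Algebra.IsIntegral.isIntegral y
  have hle : IntermediateField.adjoin ℚ_[2] {z} ≤ IntermediateField.adjoin ℚ_[2] {y} := by
    rw [IntermediateField.adjoin_le_iff]
    rintro _ rfl
    exact hz
  have h1 := IntermediateField.finrank_dvd_of_le_right hle
  rw [IntermediateField.adjoin.finrank hzi, IntermediateField.adjoin.finrank hyi] at h1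
  refine dvd_trans ?_ h1
  set m := (minpoly ℚ_[2] z).natDegree with hm
  have hm0 : 0 < m := minpoly.natDegree_pos hzi
  have h2 : ‖z‖ = ‖(minpoly ℚ_[2] z).coeff 0‖ ^ (1 / (m : ℝ)) := by
    have := spectralNorm.spectralNorm_eq_norm_coeff_zero_rpow ℚ_[2] E2 z
    rw [PadicAlgCl.spectralNorm_eq] at this
    exact this
  have h3 : ‖z‖ ^ m = ‖(minpoly ℚ_[2] z).coeff 0‖ := by
    rw [h2, ← Real.rpow_natCast, ← Real.rpow_mul (norm_nonneg _)]
    have : (1 / (m : ℝ)) * m = 1 := by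
      have : (m : ℝ) ≠ 0 := by exact_mod_cast hm0.ne'
      field_simp
    rw [this, Real.rpow_one]
  have hz0 : z ≠ 0 := by
    rintro rfl
    rw [norm_zero, zero_pow (by positivity)] at h
    norm_num at h
  have hc0 : (minpoly ℚ_[2] z).coeff 0 ≠ 0 := minpoly.coeff_zero_ne_zero hzi hz0
  have h4 := Padic.norm_eq_zpow_neg_valuation hc0
  set v := ((minpoly ℚ_[2] z).coeff 0).valuation with hv
  have h5 : (2 : ℝ) ^ (-(m : ℤ)) = (2 : ℝ) ^ (-v * (2 ^ c : ℕ)) := by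
    calc (2 : ℝ) ^ (-(m : ℤ)) = (1 / 2 : ℝ) ^ m := by
          rw [zpow_neg, zpow_natCast, one_div, inv_pow]
      _ = (‖z‖ ^ (2 ^ c)) ^ m := by rw [h]
      _ = (‖z‖ ^ m) ^ (2 ^ c) := by rw [← pow_mul, ← pow_mul, mul_comm]
      _ = ((2 : ℝ) ^ (-v)) ^ (2 ^ c) := by rw [h3, h4]; norm_num
      _ = (2 : ℝ) ^ (-v * (2 ^ c : ℕ)) := by rw [zpow_mul, zpow_natCast]
  have h6 : (-(m : ℤ)) = -v * (2 ^ c : ℕ) := zpow_right_injective₀ (by norm_num) (by norm_num) h5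
  have h7 : ((2 ^ c : ℕ) : ℤ) ∣ (m : ℤ) := ⟨v, by
    have : (m : ℤ) = -(-v * (2 ^ c : ℕ)) := by rw [← h6]; ring
    rw [this]
    ring⟩
  exact Int.natCast_dvd_natCast.1 h7

end Pool.Agent.SunPoly
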