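import Pool.Agent.SunPoly.Coeff

/-!
The small cases.
-/

open Finset Polynomial

namespace Pool.Agent.SunPoly

/-- a real quadratic without roots -/
theorem irr_quad (p : ℚ[X]) (hp : p.natDegree = 2) (h : ∀ x : ℚ, 0 < p.eval x) :
    Irreducible p := by
  apply irreducible_of_degree_le_three_of_not_isRoot
  · rw [hp]
    decide
  · intro x hx
    have h1 := h x
    rw [IsRoot.def] at hx
    rw [hx] at h1
    exact lt_irrefl _ h1

theorem dec1 : ∀ A : ZMod 13,
    ¬ (-A) ^ 4 + 2 * (-A) ^ 3 + 12 * (-A) ^ 2 + 100 * -A + 980 = 0 := by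
  decide

theorem dec2 : ∀ A B : ZMod 13, 980 = B * (12 - B - A * (2 - A)) →
    ¬ 100 = A * (12 - B - A * (2 - A)) + B * (2 - A) := by
  decide

theorem coeffs_eq {a b c d a' b' c' d' : ZMod 13}
    (h : (X ^ 4 + C a * X ^ 3 + C b * X ^ 2 + C c * X + C d : (ZMod 13)[X]) =
      X ^ 4 + C a' * X ^ 3 + C b' * X ^ 2 + C c' * X + C d') :
    a = a' ∧ b = b' ∧ c = c' ∧ d = d' := by
  have e3 := congrArg (fun f => f.coeff 3) h
  have e2 := congrArg (fun f => f.coeff 2) h
  have e1 := congrArg (fun f => f.coeff 1) h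
  have e0 := congrArg (fun f => f.coeff 0) h
  simp [coeff_X, coeff_C] at e3 e2 e1 e0
  exact ⟨e3, e2, e1, e0⟩

/-- `Q_4` reversed modulo `13` -/
theorem irr13 : Irreducible (X ^ 4 + C 2 * X ^ 3 + C 12 * X ^ 2 + C 100 * X + C 980 :
    (ZMod 13)[X]) := by
  have : Fact (Nat.Prime 13) := ⟨by norm_num⟩
  set p : (ZMod 13)[X] := X ^ 4 + C 2 * X ^ 3 + C 12 * X ^ 2 + C 100 * X + C 980 with hp
  have hdeg : p.natDegree = 4 := by
    rw [hp]
    compute_degree!
  have hmon : p.Monic := by
    rw [hp]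
    monicity!
  have hp1 : p ≠ 1 := by
    intro h
    rw [h] at hdeg
    simp at hdeg
  rw [hmon.irreducible_iff_lt_natDegree_lt hp1]
  intro q hq hqd hqp
  rw [hdeg, Finset.mem_Ioc] at hqd
  obtain ⟨g, hg⟩ := hqp
  have hgm : g.Monic := hq.of_mul_monic_left (by rw [← hg]; exact hmon)
  have hsum : q.natDegree + g.natDegree = 4 := by
    rw [← hq.natDegree_mul hgm, ← hg, hdeg]
  have hqd2 : q.natDegree = 1 ∨ q.natDegree = 2 := by omega
  rcases hqd2 with h1 | h1
  · -- a root
    have h2 := hq.eq_X_add_C h1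
    set A := q.coeff 0 with hA
    have h3 : p.eval (-A) = 0 := by
      rw [hg, h2]
      simp
    rw [hp] at h3
    simp only [eval_add, eval_mul, eval_pow, eval_X, eval_C] at h3
    exact dec1 A h3
  · have h2 : g.natDegree = 2 := by omega
    have hq2 : q.coeff 2 = 1 := by
      rw [← h1]
      exact hq
    have hg2 : g.coeff 2 = 1 := by
      rw [← h2]
      exact hgm
    have hqe : q = X ^ 2 + C (q.coeff 1) * X + C (q.coeff 0) := by
      conv_lhs => rw [q.as_sum_range_C_mul_X_pow, h1]
      simp [Finset.sum_range_succ, hq2]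
      ring
    have hge : g = X ^ 2 + C (g.coeff 1) * X + C (g.coeff 0) := by
      conv_lhs => rw [g.as_sum_range_C_mul_X_pow, h2]
      simp [Finset.sum_range_succ, hg2]
      ring
    set A := q.coeff 1 with hA
    set B := q.coeff 0 with hB
    set C' := g.coeff 1 with hC'
    set D := g.coeff 0 with hD
    have hmul : q * g = X ^ 4 + C (A + C') * X ^ 3 + C (B + D + A * C') * X ^ 2 +
        C (A * D + B * C') * X + C (B * D) := by
      rw [hqe, hge]
      simp only [C_add, C_mul]
      ring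
    rw [← hg, hp] at hmul
    obtain ⟨e3, e2, e1, e0⟩ := coeffs_eq hmul
    have e4 : C' = 2 - A := by rw [e3]; ring
    rw [e4] at e2 e1
    have e5 : D = 12 - B - A * (2 - A) := by rw [e2]; ring
    rw [e5] at e1 e0
    exact dec2 A B e0 e1

/-- `Q_4` reversed is irreducible over the rationals -/
theorem irrQ4rev : Irreducible (X ^ 4 + C 2 * X ^ 3 + C 12 * X ^ 2 + C 100 * X + C 980 : ℚ[X]) := by
  have : Fact (Nat.Prime 13) := ⟨by norm_num⟩
  set p : ℤ[X] := X ^ 4 + C 2 * X ^ 3 + C 12 * X ^ 2 + C 100 * X + C 980 with hp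
  have hmon : p.Monic := by
    rw [hp]
    monicity!
  have h1 : Irreducible p := by
    apply hmon.irreducible_of_irreducible_map (Int.castRingHom (ZMod 13))
    have h2 : p.map (Int.castRingHom (ZMod 13)) =
        X ^ 4 + C 2 * X ^ 3 + C 12 * X ^ 2 + C 100 * X + C 980 := by
      rw [hp]
      simp only [Polynomial.map_add, Polynomial.map_mul, Polynomial.map_pow, map_X, map_C]
      norm_num
    rw [h2]
    exact irr13
  have h3 := (hmon.irreducible_iff_irreducible_map_fraction_map (K := ℚ)).1 h1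
  have h4 : p.map (algebraMap ℤ ℚ) = X ^ 4 + C 2 * X ^ 3 + C 12 * X ^ 2 + C 100 * X + C 980 := by
    rw [hp]
    simp only [Polynomial.map_add, Polynomial.map_mul, Polynomial.map_pow, map_X, map_C]
    norm_num
  rw [← h4]
  exact h3

/-- irreducibility and reversal -/
theorem irr_of_reverse (p : ℚ[X]) (h0 : p.coeff 0 ≠ 0) (h : Irreducible p.reverse) :
    Irreducible p := by
  have hp0 : p ≠ 0 := by
    rintro rfl
    simp at h0
  have key : ∀ a : ℚ[X], a.coeff 0 ≠ 0 → IsUnit a.reverse → IsUnit a := by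
    intro a ha hu
    have h1 := natDegree_eq_zero_of_isUnit hu
    rw [reverse_natDegree] at h1
    have h2 : a.natTrailingDegree = 0 := by
      apply natTrailingDegree_eq_zero_of_constantCoeff_ne_zero
      exact ha
    have ha0 : a ≠ 0 := by
      rintro rfl
      simp at ha
    rw [isUnit_iff_degree_eq_zero, degree_eq_natDegree ha0]
    have h3 : a.natDegree = 0 := by omega
    rw [h3]
    rfl
  refine ⟨fun hu => ?_, fun a b hab => ?_⟩
  · have h1 := natDegree_eq_zero_of_isUnit hu
    have h2 : p.reverse.natDegree = 0 := by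
      rw [reverse_natDegree]
      omega
    have h3 := h.natDegree_pos
    omega
  · have hab0 : a.coeff 0 * b.coeff 0 ≠ 0 := by
      rw [← mul_coeff_zero, ← hab]
      exact h0
    have h1 : p.reverse = a.reverse * b.reverse := by
      rw [hab, reverse_mul_of_domain]
    rcases h.isUnit_or_isUnit h1 with h2 | h2
    · exact Or.inl (key a (left_ne_zero_of_mul hab0) h2)
    · exact Or.inr (key b (right_ne_zero_of_mul hab0) h2)

/-- `Q_4` -/
theorem irrQ4 : Irreducible (C 1 * X ^ 0 + C 2 * X ^ 1 + C 12 * X ^ 2 + C 100 * X ^ 3 +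
    C 980 * X ^ 4 : ℚ[X]) := by
  set p : ℚ[X] := C 1 * X ^ 0 + C 2 * X ^ 1 + C 12 * X ^ 2 + C 100 * X ^ 3 + C 980 * X ^ 4 with hp
  have hdeg : p.natDegree = 4 := by
    rw [hp]
    compute_degree!
  apply irr_of_reverse
  · rw [hp]
    simp
  · have h1 : p.reverse = X ^ 4 + C 2 * X ^ 3 + C 12 * X ^ 2 + C 100 * X + C 980 := by
      ext n
      rw [coeff_reverse, hdeg]
      rcases Nat.lt_or_ge 4 n with hn | hn
      · rw [revAt_eq_self_of_lt hn, coeff_eq_zero_of_natDegree_lt (by omega),
          coeff_eq_zero_of_natDegree_lt]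
        refine lt_of_le_of_lt ?_ hn
        compute_degree
      · rw [revAt_le hn, hp]
        interval_cases n <;> simp [coeff_X, coeff_C, coeff_one]
    rw [h1]
    exact irrQ4rev

end Pool.Agent.SunPoly
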