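import Pool.Agent.SunPoly.Digits

/-!
Two maximal terms determine the norm of the root.
-/

namespace Pool.Agent.SunPoly

/-- the hypotheses on the exponents of `2` in the coefficients -/
structure ValOK (V : ℕ → ℕ) : Prop where
  zero : V 0 = 0
  pos : ∀ x, 1 ≤ x → 1 ≤ V x
  even : ∀ x, V (2 * x) = 2 * s2 (2 * x)
  odd : ∀ x, V (2 * x) < V (2 * x + 1) ∨ V (2 * x + 2) ≤ V (2 * x + 1)

variable {V : ℕ → ℕ}

theorem ValOK.even' (hV : ValOK V) {x : ℕ} (hx : 2 ∣ x) : V x = 2 * s2 x := by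
  obtain ⟨y, rfl⟩ := hx
  exact hV.even y

/-- the inequality for all `x` -/
theorem ValOK.ineq (hV : ValOK V) {a n u x : ℕ} (ha : 1 ≤ a) (hn : n = 2 ^ a * u) (hx : x ≤ n) :
    2 ^ a * V n ≤ 2 ^ a * V x + 2 * (n - x) := by
  have h2n : 2 ∣ n := by
    rw [hn]
    exact (dvd_pow_self 2 (by omega)).mul_right u
  have he : ∀ y, 2 ∣ y → y ≤ n → 2 ^ a * V n ≤ 2 ^ a * V y + 2 * (n - y) := by
    intro y hy hyn
    rw [hV.even' hy, hV.even' h2n]
    have := s2_ineq hn hyn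
    have h1 : 2 ^ a * (2 * s2 n) = 2 * (2 ^ a * s2 n) := by ring
    have h2 : 2 ^ a * (2 * s2 y) = 2 * (2 ^ a * s2 y) := by ring
    rw [h1, h2]
    omega
  have h2a : 2 ≤ 2 ^ a := by
    calc 2 = 2 ^ 1 := rfl
      _ ≤ 2 ^ a := Nat.pow_le_pow_right (by norm_num) ha
  obtain ⟨y, hy | hy⟩ := Nat.even_or_odd' x
  · exact he x ⟨y, hy⟩ hx
  · have hxn : x + 1 ≤ n := by
      obtain ⟨m, hm⟩ := h2n
      omega
    rcases hV.odd y with h | h
    · have h1 := he (2 * y) ⟨y, rfl⟩ (by omega)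
      have h2 : 2 ^ a * (V (2 * y) + 1) ≤ 2 ^ a * V x := Nat.mul_le_mul_left _ (by rw [hy]; omega)
      rw [mul_add] at h2
      omega
    · have h1 := he (2 * y + 2) ⟨y + 1, by ring⟩ (by omega)
      have h2 : 2 ^ a * V (2 * y + 2) ≤ 2 ^ a * V x := Nat.mul_le_mul_left _ (by rw [hy]; exact h)
      omega

/-- the main lemma: two maximal terms determine the norm of the root -/
theorem norm_of_two_max (hV : ValOK V) {a n u : ℕ} (ha : 2 ≤ a) (hn : n = 2 ^ a * u)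
    {ρ : ℝ} (hρ : 0 < ρ) {k l : ℕ} (hkl : k < l) (hln : l ≤ n)
    (heq : (1 / 2 : ℝ) ^ V k * ρ ^ (n - k) = (1 / 2 : ℝ) ^ V l * ρ ^ (n - l))
    (hmax : ∀ x ≤ n, (1 / 2 : ℝ) ^ V x * ρ ^ (n - x) ≤ (1 / 2 : ℝ) ^ V k * ρ ^ (n - k)) :
    ρ < 1 ∧ ∃ b, a ≤ b ∧ ρ ^ (2 ^ b) = 1 / 4 := by
  have hhalf : ∀ m, (0 : ℝ) < (1 / 2) ^ m := fun m => by positivity
  have hmax' : ∀ x ≤ n, (1 / 2 : ℝ) ^ V x * ρ ^ (n - x) ≤ (1 / 2 : ℝ) ^ V l * ρ ^ (n - l) :=
    fun x hx => (hmax x hx).trans heq.le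
  have h2n : 2 ∣ n := by
    rw [hn]
    exact (dvd_pow_self 2 (by omega)).mul_right u
  -- the norm is less than one
  have hρ1 : ρ < 1 := by
    by_contra hcon
    push Not at hcon
    have h1 := hmax' 0 (Nat.zero_le n)
    rw [hV.zero, pow_zero, one_mul, Nat.sub_zero] at h1
    have h2 : ρ ^ (n - l) ≤ ρ ^ n := pow_le_pow_right₀ hcon (Nat.sub_le n l)
    have h3 : (1 / 2 : ℝ) ^ V l ≤ 1 / 2 := by
      calc (1 / 2 : ℝ) ^ V l ≤ (1 / 2) ^ 1 :=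
            pow_le_pow_of_le_one (by norm_num) (by norm_num) (hV.pos l (by omega))
        _ = 1 / 2 := pow_one _
    have h4 : (0 : ℝ) < ρ ^ (n - l) := pow_pos hρ _
    nlinarith
  refine ⟨hρ1, ?_⟩
  have hpow : ∀ i j : ℕ, i ≤ j → ρ ^ j ≤ ρ ^ i := fun i j h => pow_le_pow_of_le_one hρ.le hρ1.le h
  -- the lower bound for the norm
  have hlow : 1 / 4 ≤ ρ ^ (2 ^ a) := by
    by_contra hcon
    push Not at hcon
    have h1 := hmax n le_rfl
    rw [Nat.sub_self, pow_zero, mul_one] at h1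
    have h2 : ((1 / 2 : ℝ) ^ V n) ^ (2 ^ a) ≤ ((1 / 2 : ℝ) ^ V k * ρ ^ (n - k)) ^ (2 ^ a) :=
      pow_le_pow_left₀ (hhalf _).le h1 _
    rw [mul_pow, ← pow_mul, ← pow_mul, ← pow_mul, mul_comm (n - k) (2 ^ a), pow_mul ρ] at h2
    have h3 : (ρ ^ 2 ^ a) ^ (n - k) < (1 / 4 : ℝ) ^ (n - k) :=
      pow_lt_pow_left₀ hcon (by positivity) (by omega)
    have h4 : (1 / 4 : ℝ) ^ (n - k) = (1 / 2) ^ (2 * (n - k)) := by
      rw [pow_mul]
      norm_num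
    have h5 : (1 / 2 : ℝ) ^ (V n * 2 ^ a) < (1 / 2 : ℝ) ^ (V k * 2 ^ a) * (1 / 2) ^ (2 * (n - k)) := by
      rw [← h4]
      exact lt_of_le_of_lt h2 (mul_lt_mul_of_pos_left h3 (hhalf _))
    rw [← pow_add] at h5
    have h6 := hV.ineq (by omega) hn (show k ≤ n by omega)
    have h7 : V n * 2 ^ a ≤ V k * 2 ^ a + 2 * (n - k) := by
      rw [mul_comm (V n), mul_comm (V k)]
      exact h6
    exact absurd (pow_le_pow_of_le_one (by norm_num : (0 : ℝ) ≤ 1 / 2) (by norm_num) h7)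
      (not_le.2 h5)
  have hρ2 : 1 / 2 < ρ := by
    by_contra hcon
    push Not at hcon
    have h1 : ρ ^ (2 ^ a) ≤ ρ ^ 4 := hpow _ _ (by
      calc 4 = 2 ^ 2 := rfl
        _ ≤ 2 ^ a := Nat.pow_le_pow_right (by norm_num) ha)
    have h2 : ρ ^ 4 ≤ (1 / 2) ^ 4 := pow_le_pow_left₀ hρ.le hcon 4
    norm_num at h2
    linarith
  -- maximal indices are even
  have heven : ∀ x, x ≤ n → (∀ y ≤ n, (1 / 2 : ℝ) ^ V y * ρ ^ (n - y) ≤
      (1 / 2 : ℝ) ^ V x * ρ ^ (n - x)) → 2 ∣ x := by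
    intro x hxn hx
    obtain ⟨y, hy | hy⟩ := Nat.even_or_odd' x
    · exact ⟨y, hy⟩
    · exfalso
      have hxn' : x + 1 ≤ n := by
        obtain ⟨m, hm⟩ := h2n
        omega
      rcases hV.odd y with h | h
      · have h1 := hx (2 * y) (by omega)
        have h2 : n - 2 * y = (n - x) + 1 := by omega
        rw [h2, pow_succ] at h1
        have h3 : (1 / 2 : ℝ) ^ V x ≤ (1 / 2) ^ V (2 * y) * (1 / 2) := by
          rw [← pow_succ]
          apply pow_le_pow_of_le_one (by norm_num) (by norm_num)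
          rw [hy]
          omega
        have h4 : (0 : ℝ) < ρ ^ (n - x) := pow_pos hρ _
        have h5 := hhalf (V (2 * y))
        have h6 : (1 / 2 : ℝ) ^ V (2 * y) * ρ ≤ (1 / 2 : ℝ) ^ V x := by
          have : (1 / 2 : ℝ) ^ V (2 * y) * ρ * ρ ^ (n - x) ≤ (1 / 2 : ℝ) ^ V x * ρ ^ (n - x) := by
            calc _ = (1 / 2 : ℝ) ^ V (2 * y) * (ρ ^ (n - x) * ρ) := by ring
              _ ≤ _ := h1
          exact le_of_mul_le_mul_right this h4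
        nlinarith
      · have h1 := hx (2 * y + 2) (by omega)
        have h2 : n - x = (n - (2 * y + 2)) + 1 := by omega
        rw [h2, pow_succ] at h1
        have h3 : (1 / 2 : ℝ) ^ V x ≤ (1 / 2) ^ V (2 * y + 2) := by
          apply pow_le_pow_of_le_one (by norm_num) (by norm_num)
          rw [hy]
          exact h
        have h4 : (0 : ℝ) < ρ ^ (n - (2 * y + 2)) := pow_pos hρ _
        have h5 := hhalf (V x)
        have h6 : (1 / 2 : ℝ) ^ V (2 * y + 2) ≤ (1 / 2 : ℝ) ^ V x * ρ := by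
          have : (1 / 2 : ℝ) ^ V (2 * y + 2) * ρ ^ (n - (2 * y + 2)) ≤
              (1 / 2 : ℝ) ^ V x * ρ * ρ ^ (n - (2 * y + 2)) := by
            calc _ ≤ _ := h1
              _ = _ := by ring
          exact le_of_mul_le_mul_right this h4
        nlinarith
  have hk2 := heven k (by omega) hmax
  have hl2 := heven l hln hmax'
  -- the lowest digit
  have hdig : ∀ x, x ≤ n → x ≠ 0 → 2 ∣ x → (∀ y ≤ n, (1 / 2 : ℝ) ^ V y * ρ ^ (n - y) ≤
      (1 / 2 : ℝ) ^ V x * ρ ^ (n - x)) → 4 * ρ ^ (2 ^ padicValNat 2 x) ≤ 1 := by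
    intro x hxn hx0 hx2 hx
    obtain ⟨j, w, hw, hjw⟩ := Nat.exists_eq_two_pow_mul_odd hx0
    have hj : padicValNat 2 x = j := by
      rw [hjw, padicValNat.mul (by positivity) (by rintro rfl; simp at hw), padicValNat.prime_pow,
        padicValNat.eq_zero_of_not_dvd (by
          obtain ⟨c, hc⟩ := hw
          omega)]
      omega
    rw [hj]
    have hj1 : 1 ≤ j := by
      by_contra hcon
      have : j = 0 := by omega
      rw [this, pow_zero, one_mul] at hjw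
      obtain ⟨c, hc⟩ := hw
      omega
    obtain ⟨c, hc⟩ := hw
    have hx' : x = 2 ^ j * (2 * c) + 2 ^ j := by rw [hjw, hc]; ring
    have hle : 2 ^ j ≤ x := by omega
    have hy : x - 2 ^ j = 2 ^ j * (2 * c) := by omega
    have hy2 : 2 ∣ x - 2 ^ j := by
      rw [hy]
      exact (dvd_pow_self 2 (by omega)).mul_right _
    have hs : s2 x = s2 (x - 2 ^ j) + 1 := by
      rw [hy, hjw, s2_pow_mul, s2_pow_mul, hc, s2_two_mul_add_one, s2_two_mul]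
    have h1 := hx (x - 2 ^ j) ((Nat.sub_le _ _).trans hxn)
    rw [hV.even' hx2, hV.even' hy2, hs] at h1
    have h2 : n - (x - 2 ^ j) = (n - x) + 2 ^ j := by
      obtain ⟨M, hM⟩ : ∃ M, M = 2 ^ j := ⟨_, rfl⟩
      rw [← hM] at hle ⊢
      omega
    rw [h2, pow_add, mul_add, pow_add (1 / 2 : ℝ) (2 * s2 (x - 2 ^ j))] at h1
    have h4 : (0 : ℝ) < ρ ^ (n - x) := pow_pos hρ _
    have h5 := hhalf (2 * s2 (x - 2 ^ j))
    have h6 : 0 < (1 / 2 : ℝ) ^ (2 * s2 (x - 2 ^ j)) * ρ ^ (n - x) := mul_pos h5 h4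
    have h7 : (1 / 2 : ℝ) ^ (2 * s2 (x - 2 ^ j)) * ρ ^ (n - x) * ρ ^ (2 ^ j) ≤
        (1 / 2 : ℝ) ^ (2 * s2 (x - 2 ^ j)) * ρ ^ (n - x) * (1 / 4) := by
      calc _ = (1 / 2 : ℝ) ^ (2 * s2 (x - 2 ^ j)) * (ρ ^ (n - x) * ρ ^ (2 ^ j)) := by ring
        _ ≤ _ := h1
        _ = _ := by norm_num; ring
    have h8 := le_of_mul_le_mul_left h7 h6
    linarith
  have hex : ∃ j, 4 * ρ ^ (2 ^ j) ≤ 1 := ⟨_, hdig l hln (by omega) hl2 hmax'⟩
  classical
  set b := Nat.find hex with hb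
  have hb1 : 4 * ρ ^ (2 ^ b) ≤ 1 := Nat.find_spec hex
  have hbmin : ∀ j, 4 * ρ ^ (2 ^ j) ≤ 1 → b ≤ j := fun j hj => Nat.find_min' hex hj
  have hab : a ≤ b := by
    by_contra hcon
    push Not at hcon
    have h1 : ρ ^ (2 ^ a) < ρ ^ (2 ^ b) :=
      pow_lt_pow_right_of_lt_one₀ hρ hρ1 (Nat.pow_lt_pow_right (by norm_num) hcon)
    linarith
  refine ⟨b, hab, le_antisymm (by linarith) ?_⟩
  have hdvd : ∀ x, x ≤ n → 2 ∣ x → (∀ y ≤ n, (1 / 2 : ℝ) ^ V y * ρ ^ (n - y) ≤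
      (1 / 2 : ℝ) ^ V x * ρ ^ (n - x)) → 2 ^ b ∣ x := by
    intro x hxn hx2 hx
    rcases eq_or_ne x 0 with h0 | h0
    · rw [h0]
      exact dvd_zero _
    · have h1 := hbmin _ (hdig x hxn h0 hx2 hx)
      exact (pow_dvd_pow 2 h1).trans pow_padicValNat_dvd
  have hkb := hdvd k (by omega) hk2 hmax
  have hlb := hdvd l hln hl2 hmax'
  have hkl' : k + 2 ^ b ≤ l := by
    obtain ⟨c, hc⟩ := hkb
    obtain ⟨e, he⟩ := hlb
    have hce : c < e := by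
      by_contra hcon
      have : 2 ^ b * e ≤ 2 ^ b * c := Nat.mul_le_mul_left _ (by omega)
      omega
    have : 2 ^ b * (c + 1) ≤ 2 ^ b * e := Nat.mul_le_mul_left _ hce
    rw [mul_add] at this
    omega
  have h1 := hmax (k + 2 ^ b) (by omega)
  have hkb2 : 2 ∣ k + 2 ^ b := dvd_add hk2 (dvd_pow_self 2 (by omega))
  have hs : s2 (k + 2 ^ b) ≤ s2 k + 1 := by
    have := s2_add_le k (2 ^ b)
    rwa [s2_pow] at this
  rw [hV.even' hk2, hV.even' hkb2] at h1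
  have h2 : n - k = (n - (k + 2 ^ b)) + 2 ^ b := by omega
  rw [h2, pow_add ρ] at h1
  have h3 : (1 / 2 : ℝ) ^ (2 * s2 k) * (1 / 4) ≤ (1 / 2) ^ (2 * s2 (k + 2 ^ b)) := by
    have : (1 / 4 : ℝ) = (1 / 2) ^ 2 := by norm_num
    rw [this, ← pow_add]
    exact pow_le_pow_of_le_one (by norm_num) (by norm_num) (by omega)
  have h4 : (0 : ℝ) < ρ ^ (n - (k + 2 ^ b)) := pow_pos hρ _
  have h5 := hhalf (2 * s2 k)
  have h6 : (1 / 2 : ℝ) ^ (2 * s2 k) * ρ ^ (n - (k + 2 ^ b)) * (1 / 4) ≤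
      (1 / 2 : ℝ) ^ (2 * s2 k) * ρ ^ (n - (k + 2 ^ b)) * ρ ^ (2 ^ b) := by
    calc _ = (1 / 2 : ℝ) ^ (2 * s2 k) * (1 / 4) * ρ ^ (n - (k + 2 ^ b)) := by ring
      _ ≤ (1 / 2) ^ (2 * s2 (k + 2 ^ b)) * ρ ^ (n - (k + 2 ^ b)) :=
          mul_le_mul_of_nonneg_right h3 h4.le
      _ ≤ _ := h1
      _ = _ := by ring
  exact le_of_mul_le_mul_left h6 (mul_pos h5 h4)

end Pool.Agent.SunPoly
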