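import Pool.Agent.SunPoly.Field

/-!
The main analysis of the roots.
-/

open Finset

namespace Pool.Agent.SunPoly

theorem norm_two_E2 : ‖(2 : E2)‖ = 1 / 2 := by
  have h := norm_natCast_E2 2 (by norm_num)
  have h1 : padicValNat 2 2 = 1 := padicValNat_self
  rw [h1, pow_one] at h
  exact_mod_cast h

theorem norm_nat_le_one (m : ℕ) : ‖(m : E2)‖ ≤ 1 := by
  rcases eq_or_ne m 0 with h | h
  · rw [h]
    simp
  · rw [norm_natCast_E2 m h]
    exact pow_le_one₀ (by norm_num) (by norm_num)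

/-- the small terms -/
theorem small_term {ρ : ℝ} (hρ : 0 < ρ) {H : ℕ} (hH : H ≠ 0) (h : ρ ^ H = 1 / 2) {V W m : ℕ}
    (hle : H * W ≤ H * V + m) : (1 / 2 : ℝ) ^ V * ρ ^ m ≤ (1 / 2) ^ W := by
  have e1 : (ρ ^ m) ^ H = (1 / 2) ^ m := by
    rw [← pow_mul, mul_comm m H, pow_mul, h]
  rw [← pow_le_pow_iff_left₀ (by positivity) (by positivity) hH, mul_pow, e1, ← pow_mul,
    ← pow_mul, ← pow_add]
  apply pow_le_pow_of_le_one (by norm_num) (by norm_num)
  rw [mul_comm W, mul_comm V]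
  exact hle

/-- replacing the coefficients by powers of two and removing the small terms -/
theorem approx {V : ℕ → ℕ} {δ n : ℕ} (c : ℕ → E2)
    (hc : ∀ x, ∃ ε : E2, c x = 2 ^ V x * ε ∧ ‖ε - 1‖ ≤ (1 / 2 : ℝ) ^ δ) {α : E2} {H : ℕ}
    (hH : H ≠ 0) (hα : ‖α‖ ^ H = 1 / 2) (T : Finset ℕ) (hT : T ⊆ range (n + 1))
    (h0 : ∀ x ≤ n, H * V n ≤ H * V x + (n - x))
    (h1 : ∀ x ≤ n, x ∉ T → H * (V n + δ) ≤ H * V x + (n - x))
    (hsum : ∑ k ∈ range (n + 1), c k * α ^ (n - k) = 0) :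
    ‖∑ k ∈ T, (2 : E2) ^ V k * α ^ (n - k)‖ ≤ (1 / 2 : ℝ) ^ (V n + δ) := by
  have hρ : 0 < ‖α‖ := by
    rcases (norm_nonneg α).eq_or_lt with h | h
    · rw [← h, zero_pow hH] at hα
      norm_num at hα
    · exact h
  have hterm : ∀ x, ‖(2 : E2) ^ V x * α ^ (n - x)‖ = (1 / 2 : ℝ) ^ V x * ‖α‖ ^ (n - x) := by
    intro x
    rw [norm_mul, norm_pow, norm_pow, norm_two_E2]
  have hA : ‖∑ k ∈ range (n + 1), (2 : E2) ^ V k * α ^ (n - k)‖ ≤ (1 / 2 : ℝ) ^ (V n + δ) := by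
    have e1 : ∑ k ∈ range (n + 1), (2 : E2) ^ V k * α ^ (n - k) =
        ∑ k ∈ range (n + 1), ((2 : E2) ^ V k - c k) * α ^ (n - k) := by
      have : ∑ k ∈ range (n + 1), ((2 : E2) ^ V k - c k) * α ^ (n - k) =
          ∑ k ∈ range (n + 1), (2 : E2) ^ V k * α ^ (n - k) -
            ∑ k ∈ range (n + 1), c k * α ^ (n - k) := by
        rw [← Finset.sum_sub_distrib]
        exact Finset.sum_congr rfl fun k _ => by ring
      rw [this, hsum, sub_zero]
    rw [e1]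
    apply IsUltrametricDist.norm_sum_le_of_forall_le_of_nonneg (by positivity)
    intro x hx
    have hxn : x ≤ n := by
      have := Finset.mem_range.1 hx
      omega
    obtain ⟨ε, hε, hε1⟩ := hc x
    have e2 : ((2 : E2) ^ V x - c x) * α ^ (n - x) = ((2 : E2) ^ V x * α ^ (n - x)) * -(ε - 1) := by
      rw [hε]
      ring
    rw [e2, norm_mul, norm_neg, hterm, pow_add]
    exact mul_le_mul (small_term hρ hH hα (h0 x hxn)) hε1 (norm_nonneg _) (by positivity)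
  have hB : ‖∑ k ∈ range (n + 1) \ T, (2 : E2) ^ V k * α ^ (n - k)‖ ≤ (1 / 2 : ℝ) ^ (V n + δ) := by
    apply IsUltrametricDist.norm_sum_le_of_forall_le_of_nonneg (by positivity)
    intro x hx
    rw [Finset.mem_sdiff, Finset.mem_range] at hx
    rw [hterm]
    exact small_term hρ hH hα (h1 x (by omega) hx.2)
  have e3 := Finset.sum_sdiff (f := fun k => (2 : E2) ^ V k * α ^ (n - k)) hT
  have e4 : ∑ k ∈ T, (2 : E2) ^ V k * α ^ (n - k) =
      ∑ k ∈ range (n + 1), (2 : E2) ^ V k * α ^ (n - k) +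
        -∑ k ∈ range (n + 1) \ T, (2 : E2) ^ V k * α ^ (n - k) := by
    rw [← e3]
    ring
  rw [e4]
  refine (IsUltrametricDist.norm_add_le_max _ _).trans (max_le hA ?_)
  rw [norm_neg]
  exact hB

/-- the norm of the coefficients -/
theorem norm_coeff {V : ℕ → ℕ} {δ : ℕ} (c : ℕ → E2) (hδ : 1 ≤ δ)
    (hc : ∀ x, ∃ ε : E2, c x = 2 ^ V x * ε ∧ ‖ε - 1‖ ≤ (1 / 2 : ℝ) ^ δ) (x : ℕ) :
    ‖c x‖ = (1 / 2 : ℝ) ^ V x := by
  obtain ⟨ε, hε, hε1⟩ := hc x
  have h1 : ‖ε‖ = 1 := by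
    have h2 : ‖ε + -1‖ < ‖(-1 : E2)‖ := by
      rw [norm_neg, norm_one, ← sub_eq_add_neg]
      refine lt_of_le_of_lt hε1 ?_
      exact pow_lt_one₀ (by norm_num) (by norm_num) (by omega)
    have h3 := norm_eq_of_add_lt h2
    rw [h3, norm_neg, norm_one]
  rw [hε, norm_mul, norm_pow, norm_two_E2, h1, mul_one]

/-- the dichotomy -/
theorem dichotomy {V : ℕ → ℕ} (hV : ValOK V) {δ n a u : ℕ} (c : ℕ → E2) (hδ : 1 ≤ δ)
    (hc : ∀ x, ∃ ε : E2, c x = 2 ^ V x * ε ∧ ‖ε - 1‖ ≤ (1 / 2 : ℝ) ^ δ)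
    (ha : 2 ≤ a) (hn : n = 2 ^ a * u) (y : E2) (hy : ∑ k ∈ range (n + 1), c k * y ^ k = 0) :
    y ≠ 0 ∧ ∑ k ∈ range (n + 1), c k * y⁻¹ ^ (n - k) = 0 ∧ ‖y⁻¹‖ < 1 ∧
      (2 ^ a ∣ (minpoly ℚ_[2] y).natDegree ∨ ‖y⁻¹‖ ^ (2 ^ (a - 1)) = 1 / 2) := by
  have hcn := norm_coeff c hδ hc
  have hc0 : ∀ x, c x ≠ 0 := by
    intro x
    rw [← norm_pos_iff, hcn]
    positivity
  have hy0 : y ≠ 0 := by
    rintro rfl
    rw [Finset.sum_eq_single 0] at hy
    · rw [pow_zero, mul_one] at hy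
      exact hc0 0 hy
    · intro k _ hk
      rw [zero_pow hk, mul_zero]
    · intro h
      exact absurd (Finset.mem_range.2 (by omega)) h
  have hsum : ∑ k ∈ range (n + 1), c k * y⁻¹ ^ (n - k) = 0 := by
    have h1 : ∑ k ∈ range (n + 1), c k * y⁻¹ ^ (n - k) =
        y⁻¹ ^ n * ∑ k ∈ range (n + 1), c k * y ^ k := by
      rw [Finset.mul_sum]
      refine Finset.sum_congr rfl fun k hk => ?_
      have hkn : k ≤ n := by
        have := Finset.mem_range.1 hk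
        omega
      have h2 : y⁻¹ ^ n = y⁻¹ ^ (n - k) * y⁻¹ ^ k := by
        rw [← pow_add]
        congr 1
        omega
      rw [h2]
      have h3 : y⁻¹ ^ k * y ^ k = 1 := by
        rw [← mul_pow, inv_mul_cancel₀ hy0, one_pow]
      calc c k * y⁻¹ ^ (n - k) = c k * y⁻¹ ^ (n - k) * 1 := (mul_one _).symm
        _ = c k * y⁻¹ ^ (n - k) * (y⁻¹ ^ k * y ^ k) := by rw [h3]
        _ = _ := by ring
    rw [h1, hy, mul_zero]
  have hρ : 0 < ‖y⁻¹‖ := norm_pos_iff.2 (inv_ne_zero hy0)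
  obtain ⟨k, l, hkl, hln, heq, hmax⟩ := two_max n (fun k => c k * y⁻¹ ^ (n - k)) hsum
    (mul_ne_zero (hc0 0) (pow_ne_zero _ (inv_ne_zero hy0)))
  have hf : ∀ x, ‖c x * y⁻¹ ^ (n - x)‖ = (1 / 2 : ℝ) ^ V x * ‖y⁻¹‖ ^ (n - x) := by
    intro x
    rw [norm_mul, hcn, norm_pow]
  simp only [hf] at heq hmax
  obtain ⟨hρ1, b, hab, hb⟩ := norm_of_two_max hV ha hn hρ hkl hln heq hmax
  refine ⟨hy0, hsum, hρ1, ?_⟩
  have hb2 : ‖y⁻¹‖ ^ (2 ^ (b - 1)) = 1 / 2 := by
    have h1 : (‖y⁻¹‖ ^ (2 ^ (b - 1))) ^ 2 = (1 / 2) ^ 2 := by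
      rw [← pow_mul, ← pow_succ]
      have : b - 1 + 1 = b := by omega
      rw [this, hb]
      norm_num
    exact (pow_left_inj₀ (by positivity) (by norm_num) (by norm_num)).1 h1
  rcases Nat.lt_or_ge a b with h | h
  · left
    have h1 : y⁻¹ ∈ IntermediateField.adjoin ℚ_[2] {y} :=
      inv_mem (IntermediateField.mem_adjoin_simple_self ℚ_[2] y)
    exact (pow_dvd_pow 2 (by omega)).trans (deg_dvd y y⁻¹ h1 hb2)
  · right
    have : a = b := le_antisymm hab h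
    rw [this]
    exact hb2

/-- the last step -/
theorem finish {a : ℕ} (ha : 1 ≤ a) (y : E2) (hρ : ‖y⁻¹‖ ^ (2 ^ (a - 1)) = 1 / 2)
    (h : ∃ z ∈ (IntermediateField.adjoin ℚ_[2] {y}).toSubfield, ‖z‖ ^ 2 = ‖y⁻¹‖) :
    2 ^ a ∣ (minpoly ℚ_[2] y).natDegree := by
  obtain ⟨z, hz, hz2⟩ := h
  apply deg_dvd y z hz
  have : 2 ^ a = 2 * 2 ^ (a - 1) := by
    rw [← pow_succ']
    congr 1
    omega
  rw [this, pow_mul, hz2, hρ]

theorem s2_odd_pred {u : ℕ} (hu : u % 2 = 1) : s2 u = s2 (u - 1) + 1 := by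
  obtain ⟨c, hc | hc⟩ := Nat.even_or_odd' (u - 1)
  · have : u = 2 * c + 1 := by omega
    rw [hc, this, s2_two_mul_add_one, s2_two_mul]
  · omega

theorem n_eq {a n u : ℕ} (hn : n = 2 ^ a * u) (hu : u % 2 = 1) :
    n = 2 ^ a * (u - 1) + 2 ^ a := by
  rw [hn]
  obtain ⟨c, hc⟩ : ∃ c, u = c + 1 := ⟨u - 1, by omega⟩
  rw [hc]
  simp [mul_add]

/-- the roots of `P_n` -/
theorem rootP {n a u : ℕ} (c : ℕ → E2)
    (hc : ∀ x, ∃ ε : E2, c x = 2 ^ VP x * ε ∧ ‖ε - 1‖ ≤ (1 / 2 : ℝ) ^ 2)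
    (ha : 2 ≤ a) (hn : n = 2 ^ a * u) (hu : u % 2 = 1) (y : E2)
    (hy : ∑ k ∈ range (n + 1), c k * y ^ k = 0) : 2 ^ a ∣ (minpoly ℚ_[2] y).natDegree := by
  obtain ⟨hy0, hsum, hρ1, h | hρ⟩ := dichotomy valOK_VP c (by norm_num) hc ha hn y hy
  · exact h
  have hα : y⁻¹ ∈ (IntermediateField.adjoin ℚ_[2] {y}).toSubfield :=
    inv_mem (IntermediateField.mem_adjoin_simple_self ℚ_[2] y)
  set α := y⁻¹ with hαdef
  set S := (IntermediateField.adjoin ℚ_[2] {y}).toSubfield with hS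
  have hα0 : 0 < ‖α‖ := norm_pos_iff.2 (inv_ne_zero hy0)
  refine finish (by omega) y hρ ?_
  rw [← hαdef, ← hS]
  set H := 2 ^ (a - 1) with hHdef
  have hH0 : H ≠ 0 := by positivity
  have hA2 : 2 ^ a = 2 * H := by
    rw [hHdef, ← pow_succ']
    congr 1
    omega
  have hnN := n_eq hn hu
  set N := 2 ^ a * (u - 1) with hN
  have hlt : ∀ j < a, 2 ^ j < 2 ^ a := fun j hj => Nat.pow_lt_pow_right (by norm_num) hj
  have hpos : ∀ j, 0 < 2 ^ j := fun j => by positivity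
  set I := (range a).image (fun j => N + 2 ^ j) with hI
  have hT : insert n (insert N I) ⊆ range (n + 1) := by
    intro x hx
    rw [Finset.mem_insert, Finset.mem_insert, hI, Finset.mem_image] at hx
    rw [Finset.mem_range]
    rcases hx with rfl | rfl | ⟨j, hj, rfl⟩
    · omega
    · omega
    · have := hlt j (Finset.mem_range.1 hj)
      omega
  have h0 : ∀ x ≤ n, H * VP n ≤ H * VP x + (n - x) := by
    intro x hx
    have := valOK_VP.ineq (by omega) hn hx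
    rw [hA2, mul_assoc, mul_assoc, ← mul_add] at this
    exact Nat.le_of_mul_le_mul_left this (by norm_num)
  have h1 : ∀ x ≤ n, x ∉ insert n (insert N I) → H * (VP n + 2) ≤ H * VP x + (n - x) := by
    intro x hx hxT
    rw [Finset.mem_insert, Finset.mem_insert, hI, Finset.mem_image] at hxT
    push Not at hxT
    obtain ⟨e1, e2, e3⟩ := hxT
    have := errP hn hu hx e1 e2 (fun j hj h => e3 j (Finset.mem_range.2 hj) h.symm)
    unfold VP
    rw [hA2] at this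
    calc H * (2 * s2 n + 2) = 2 * H * (s2 n + 1) := by ring
      _ ≤ 2 * H * s2 x + (n - x) := this
      _ = _ := by ring
  have hap := approx c hc hH0 hρ _ hT h0 h1 hsum
  set β := α ^ H / 2 with hβ
  have hαH : α ^ H = 2 * β := by
    rw [hβ]
    field_simp
  have hNn : n ∉ insert N I := by
    rw [Finset.mem_insert, hI, Finset.mem_image]
    rintro (h | ⟨j, hj, h⟩)
    · have := hpos a
      omega
    · have := hlt j (Finset.mem_range.1 hj)
      omega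
  have hNI : N ∉ I := by
    rw [hI, Finset.mem_image]
    rintro ⟨j, hj, h⟩
    have := hpos j
    omega
  have hs : s2 n = s2 (u - 1) + 1 := by rw [hn, s2_pow_mul, s2_odd_pred hu]
  have hsN : s2 N = s2 (u - 1) := by rw [hN, s2_pow_mul]
  have hsum2 : ∑ k ∈ insert n (insert N I), (2 : E2) ^ VP k * α ^ (n - k) =
      2 ^ VP n * ((β + 1) ^ 2 + ∑ j ∈ range (a - 1), α ^ (2 ^ a - 2 ^ j)) := by
    rw [Finset.sum_insert hNn, Finset.sum_insert hNI, hI, Finset.sum_image (by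
      intro i _ j _ hij
      have : 2 ^ i = 2 ^ j := by
        have hij' : N + 2 ^ i = N + 2 ^ j := hij
        omega
      exact Nat.pow_right_injective (le_refl 2) this)]
    have e1 : ∀ j ∈ range a, (2 : E2) ^ VP (N + 2 ^ j) * α ^ (n - (N + 2 ^ j)) =
        2 ^ VP n * α ^ (2 ^ a - 2 ^ j) := by
      intro j hj
      have hja := hlt j (Finset.mem_range.1 hj)
      have e2 : VP (N + 2 ^ j) = VP n := by
        unfold VP
        rw [hs, hN, s2_pow_mul_add a _ _ hja, s2_pow]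
      have e3 : n - (N + 2 ^ j) = 2 ^ a - 2 ^ j := by omega
      rw [e2, e3]
    rw [Finset.sum_congr rfl e1, ← Finset.mul_sum]
    have e4 : VP n = VP N + 2 := by
      unfold VP
      rw [hs, hsN]
      ring
    have e5 : n - N = 2 ^ a := by omega
    have e6 : α ^ (2 ^ a) = 4 * β ^ 2 := by
      rw [hA2, mul_comm, pow_mul, hαH]
      ring
    have e7 : ∑ j ∈ range a, α ^ (2 ^ a - 2 ^ j) =
        ∑ j ∈ range (a - 1), α ^ (2 ^ a - 2 ^ j) + 2 * β := by
      have : a = (a - 1) + 1 := by omega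
      rw [← hαH]
      conv_lhs => rw [this, Finset.sum_range_succ]
      congr 1
      · refine Finset.sum_congr rfl fun j _ => ?_
        rw [← this]
      · congr 1
        rw [← this, ← hHdef]
        omega
    rw [e5, e6, e7, Nat.sub_self, pow_zero, e4, pow_add]
    ring
  rw [hsum2, norm_mul, norm_pow, norm_two_E2, pow_add] at hap
  have hfin := le_of_mul_le_mul_left hap (by positivity)
  exact startP S α hα hα0 hρ1 norm_two_E2 ha hρ (β + 1)
    (S.add_mem (S.div_mem (S.pow_mem hα _) (by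
      have := S.add_mem S.one_mem S.one_mem
      rwa [one_add_one_eq_two] at this)) S.one_mem)
    (hfin.trans (by norm_num))

/-- the roots of `Q_n` -/
theorem rootQ {n a u : ℕ} (c : ℕ → E2)
    (hc : ∀ x, ∃ ε : E2, c x = 2 ^ VQ x * ε ∧ ‖ε - 1‖ ≤ (1 / 2 : ℝ) ^ 1)
    (ha : 3 ≤ a) (hn : n = 2 ^ a * u) (hu : u % 2 = 1) (y : E2)
    (hy : ∑ k ∈ range (n + 1), c k * y ^ k = 0) : 2 ^ a ∣ (minpoly ℚ_[2] y).natDegree := by
  obtain ⟨hy0, hsum, hρ1, h | hρ⟩ := dichotomy valOK_VQ c (by norm_num) hc (by omega) hn y hy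
  · exact h
  have hα : y⁻¹ ∈ (IntermediateField.adjoin ℚ_[2] {y}).toSubfield :=
    inv_mem (IntermediateField.mem_adjoin_simple_self ℚ_[2] y)
  set α := y⁻¹ with hαdef
  set S := (IntermediateField.adjoin ℚ_[2] {y}).toSubfield with hS
  have hα0 : 0 < ‖α‖ := norm_pos_iff.2 (inv_ne_zero hy0)
  refine finish (by omega) y hρ ?_
  rw [← hαdef, ← hS]
  set H := 2 ^ (a - 1) with hHdef
  have hH0 : H ≠ 0 := by positivity
  have hA2 : 2 ^ a = 2 * H := by
    rw [hHdef, ← pow_succ']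
    congr 1
    omega
  have hHG : H = 2 * 2 ^ (a - 2) := by
    rw [hHdef, ← pow_succ']
    congr 1
    omega
  have hG : 2 ≤ 2 ^ (a - 2) := by
    calc 2 = 2 ^ 1 := rfl
      _ ≤ 2 ^ (a - 2) := Nat.pow_le_pow_right (by norm_num) (by omega)
  set G := 2 ^ (a - 2) with hGdef
  have hnN := n_eq hn hu
  set N := 2 ^ a * (u - 1) with hN
  have hT : insert n (insert N ({N + 1} : Finset ℕ)) ⊆ range (n + 1) := by
    intro x hx
    rw [Finset.mem_insert, Finset.mem_insert, Finset.mem_singleton] at hx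
    rw [Finset.mem_range]
    omega
  have h0 : ∀ x ≤ n, H * VQ n ≤ H * VQ x + (n - x) := by
    intro x hx
    have := valOK_VQ.ineq (by omega) hn hx
    rw [hA2, mul_assoc, mul_assoc, ← mul_add] at this
    exact Nat.le_of_mul_le_mul_left this (by norm_num)
  have h1 : ∀ x ≤ n, x ∉ insert n (insert N ({N + 1} : Finset ℕ)) → H * (VQ n + 1) ≤ H * VQ x + (n - x) := by
    intro x hx hxT
    rw [Finset.mem_insert, Finset.mem_insert, Finset.mem_singleton] at hxT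
    push Not at hxT
    obtain ⟨e1, e2, e3⟩ := hxT
    exact errQ ha hn hu hx e1 e2 e3
  have hap := approx c hc hH0 hρ _ hT h0 h1 hsum
  set β := α ^ H / 2 with hβ
  have hαH : α ^ H = 2 * β := by
    rw [hβ]
    field_simp
  have hβ1 : ‖β‖ = 1 := by
    rw [hβ, norm_div, norm_pow, hρ, norm_two_E2]
    norm_num
  have hNn : n ∉ insert N ({N + 1} : Finset ℕ) := by
    rw [Finset.mem_insert, Finset.mem_singleton]
    omega
  have hNI : N ∉ ({N + 1} : Finset ℕ) := by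
    rw [Finset.mem_singleton]
    omega
  have hs : s2 n = s2 (u - 1) + 1 := by rw [hn, s2_pow_mul, s2_odd_pred hu]
  have hsN : s2 N = s2 (u - 1) := by rw [hN, s2_pow_mul]
  have h2N : 2 ∣ N := by
    rw [hN]
    exact (dvd_pow_self 2 (by omega)).mul_right _
  have h2n : 2 ∣ n := by
    rw [hn]
    exact (dvd_pow_self 2 (by omega)).mul_right _
  have hVn : VQ n = 2 * s2 (u - 1) + 2 := by
    rw [valOK_VQ.even' h2n, hs]
    ring
  have hVN : VQ N = 2 * s2 (u - 1) := by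
    rw [valOK_VQ.even' h2N, hsN]
  have hVN1 : VQ (N + 1) = 2 * s2 (u - 1) + 1 := by
    have e1 := VQ_add_one (N + 1)
    have e2 : s2 (N + 1) = s2 (u - 1) + 1 := by
      rw [hN, s2_pow_mul_add a _ 1 (by omega), s2_one]
    have e3 : s2 (N + 1 + 1) = s2 (u - 1) + 1 := by
      rw [hN, add_assoc, s2_pow_mul_add a _ (1 + 1) (by omega)]
      have : s2 (1 + 1) = 1 := s2_pow 1
      rw [this]
    omega
  have hsum2 : ∑ k ∈ insert n (insert N ({N + 1} : Finset ℕ)), (2 : E2) ^ VQ k * α ^ (n - k) =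
      2 ^ VQ n * (1 + β ^ 2 + α ^ (H - 1) * β) := by
    rw [Finset.sum_insert hNn, Finset.sum_insert hNI, Finset.sum_singleton]
    have e5 : n - N = 2 ^ a := by omega
    have e6 : α ^ (2 ^ a) = 4 * β ^ 2 := by
      rw [hA2, mul_comm, pow_mul, hαH]
      ring
    have e7 : α ^ (n - (N + 1)) = α ^ (H - 1) * (2 * β) := by
      rw [← hαH, ← pow_add]
      congr 1
      omega
    rw [e5, e6, e7, Nat.sub_self, pow_zero, hVn, hVN, hVN1, pow_succ, pow_add]
    ring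
  rw [hsum2, norm_mul, norm_pow, norm_two_E2, pow_add] at hap
  have hfin := le_of_mul_le_mul_left hap (by positivity)
  rw [pow_one] at hfin
  have hX : (β + 1) ∈ S := S.add_mem (S.div_mem (S.pow_mem hα _) (by
      have := S.add_mem S.one_mem S.one_mem
      rwa [one_add_one_eq_two] at this)) S.one_mem
  have hX2 : ‖(β + 1) ^ 2 + α ^ (H - 1) * β‖ ≤ 1 / 2 := by
    have e1 : (β + 1) ^ 2 + α ^ (H - 1) * β = (1 + β ^ 2 + α ^ (H - 1) * β) + 2 * β := by ring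
    rw [e1]
    refine (IsUltrametricDist.norm_add_le_max _ _).trans (max_le hfin ?_)
    rw [norm_mul, norm_two_E2, hβ1, mul_one]
  have hX3 : ‖α ^ (H - 1) * β‖ = ‖α‖ ^ (H - 1) := by rw [norm_mul, hβ1, mul_one, norm_pow]
  have hlt : (1 / 2 : ℝ) < ‖α‖ ^ (H - 1) := by
    rw [← hρ]
    exact pow_lt_pow_right_of_lt_one₀ hα0 hρ1 (by omega)
  have hX4 : ‖(β + 1) ^ 2‖ = ‖α‖ ^ (H - 1) := by
    rw [← hX3]
    apply norm_eq_of_add_lt
    rw [hX3]
    exact lt_of_le_of_lt hX2 hlt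
  refine ⟨(β + 1) / α ^ (G - 1), S.div_mem hX (S.pow_mem hα _), ?_⟩
  rw [norm_div, div_pow, ← norm_pow, hX4, norm_pow, ← pow_mul]
  have e1 : H - 1 = (G - 1) * 2 + 1 := by omega
  rw [e1, pow_succ]
  field_simp

end Pool.Agent.SunPoly
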